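import Pool.Agent.H148.SF.Marg

/-!
# Harmonic functions on which sunflower forms do not vanish
-/

set_option autoImplicit false

namespace Pool.Agent.H148.SF

open Finset Pool.Agent.H148.SR

/-- the difference of two indicators -/
def sg (p q : Fin 4) (S : Finset (Fin 4)) : ℤ := (if p ∈ S then 1 else 0) - (if q ∈ S then 1 else 0)

def b4 (S : Finset (Fin 4)) : ℤ := if S.card = 2 then sg 0 2 S * sg 1 3 S else 0

def c4 (S : Finset (Fin 4)) : ℤ := if S.card = 2 then sg 0 3 S * sg 1 2 S else 0

def q4 (S : Finset (Fin 4)) : ℕ := if S = {0, 1} ∨ S = {2, 3} then 1 else 0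

theorem b4_harm : ∀ C : Finset (Fin 4), ∑ b ∈ Cᶜ, b4 (insert b C) = 0 := by decide

theorem c4_harm : ∀ C : Finset (Fin 4), ∑ b ∈ Cᶜ, c4 (insert b C) = 0 := by decide

theorem b4_card {S : Finset (Fin 4)} (h : b4 S ≠ 0) : S.card = 2 := by
  by_contra h'
  exact h (if_neg h')

theorem c4_card {S : Finset (Fin 4)} (h : c4 S ≠ 0) : S.card = 2 := by
  by_contra h'
  exact h (if_neg h')

theorem bc4 : ∀ S : Finset (Fin 4), ((b4 S = 0 ∨ c4 S = 0) ∧ q4 S = 0) ∨
    (b4 S = 1 ∧ c4 S = 1 ∧ q4 S = 1) := by decide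

variable {m : ℕ}

def blk (t : Fin m) (B : Finset (Fin m × Fin 4)) : Finset (Fin 4) := univ.filter fun c => (t, c) ∈ B

theorem mem_blk (t : Fin m) (B : Finset (Fin m × Fin 4)) (c : Fin 4) :
    c ∈ blk t B ↔ (t, c) ∈ B := by
  simp [blk]

theorem card_blk (B : Finset (Fin m × Fin 4)) : ∑ t, (blk t B).card = B.card := by
  have h1 : B.card = ∑ x : Fin m × Fin 4, if x ∈ B then 1 else 0 := by simp
  rw [h1, Fintype.sum_prod_type]
  refine sum_congr rfl fun t _ => ?_
  rw [blk, card_filter]

def prodH (φ : Finset (Fin 4) → ℤ) (B : Finset (Fin m × Fin 4)) : ℂ :=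
  ∏ t, ((φ (blk t B) : ℤ) : ℂ)

theorem prodH_card {φ : Finset (Fin 4) → ℤ} (hφ : ∀ {S}, φ S ≠ 0 → S.card = 2)
    {B : Finset (Fin m × Fin 4)} (h : prodH φ B ≠ 0) (t : Fin m) : (blk t B).card = 2 := by
  apply hφ
  intro h0
  apply h
  apply prod_eq_zero (mem_univ t)
  rw [h0, Int.cast_zero]

theorem card_of_blk {B : Finset (Fin m × Fin 4)} (h : ∀ t, (blk t B).card = 2) :
    B.card = 2 * m := by
  rw [← card_blk, sum_congr rfl fun t _ => h t]
  simp [mul_comm]

theorem prodH_harm {φ : Finset (Fin 4) → ℤ} (hφ : ∀ {S}, φ S ≠ 0 → S.card = 2)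
    (hh : ∀ C : Finset (Fin 4), ∑ b ∈ Cᶜ, φ (insert b C) = 0) :
    (prodH φ : Finset (Fin m × Fin 4) → ℂ) ∈ Harm (Fin m × Fin 4) (2 * m) := by
  refine ⟨fun B hB => ?_, fun C => ?_⟩
  · by_contra h
    exact hB (card_of_blk fun t => prodH_card hφ h t)
  · have h1 : ∑ b ∈ Cᶜ, prodH φ (insert b C) =
        ∑ b : Fin m × Fin 4, if b ∈ Cᶜ then prodH φ (insert b C) else 0 := by
      rw [sum_ite_mem, univ_inter]
    rw [h1, Fintype.sum_prod_type]
    refine sum_eq_zero fun t _ => ?_
    have h2 : ∀ c, (if (t, c) ∈ Cᶜ then prodH φ (insert (t, c) C) else 0) =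
        (∏ t' ∈ univ.erase t, ((φ (blk t' C) : ℤ) : ℂ)) *
          (if c ∈ (blk t C)ᶜ then ((φ (insert c (blk t C)) : ℤ) : ℂ) else 0) := by
      intro c
      have h3 : (t, c) ∈ Cᶜ ↔ c ∈ (blk t C)ᶜ := by
        rw [mem_compl, mem_compl, mem_blk]
      by_cases hc : c ∈ (blk t C)ᶜ
      · rw [if_pos hc, if_pos (h3.mpr hc)]
        unfold prodH
        rw [← mul_prod_erase univ _ (mem_univ t), mul_comm]
        congr 1
        · refine prod_congr rfl fun t' ht' => ?_
          congr 2
          ext c'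
          rw [mem_blk, mem_blk, mem_insert, Prod.mk.injEq]
          have := ne_of_mem_erase ht'
          tauto
        · congr 2
          ext c'
          rw [mem_blk, mem_insert, mem_insert, mem_blk, Prod.mk.injEq]
          simp
      · rw [if_neg hc, if_neg (fun h => hc (h3.mp h)), mul_zero]
    rw [sum_congr rfl fun c _ => h2 c, ← mul_sum, sum_ite_mem, univ_inter]
    have h4 : ∑ c ∈ (blk t C)ᶜ, ((φ (insert c (blk t C)) : ℤ) : ℂ) = 0 := by
      rw [← Int.cast_sum, hh, Int.cast_zero]
    rw [h4, mul_zero]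

/-- a sunflower tuple all of whose blocks have size two is constant -/
theorem const_of_blk {k : ℕ} (hk : 4 ≤ k) (x : Fin k → Finset (Fin m × Fin 4))
    (hx : ∀ j t, (blk t (x j)).card = 2)
    (hs : ∀ i, (univ.filter fun j => i ∈ x j).card = 0 ∨
      (univ.filter fun j => i ∈ x j).card = 1 ∨ (univ.filter fun j => i ∈ x j).card = k)
    (j j' : Fin k) : x j = x j' := by
  have h1 : ∀ t, ∑ c : Fin 4, (univ.filter fun j => (t, c) ∈ x j).card = 2 * k := by
    intro t
    have : ∑ j, (blk t (x j)).card = 2 * k := by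
      rw [sum_congr rfl fun j _ => hx j t]
      simp [mul_comm]
    rw [← this]
    simp only [card_filter, blk]
    exact sum_comm
  have h2 : ∀ i, (univ.filter fun j => i ∈ x j).card = 0 ∨
      (univ.filter fun j => i ∈ x j).card = k := by
    rintro ⟨t, c⟩
    have h3 := h1 t
    rw [Fin.sum_univ_four] at h3
    have e0 := hs (t, 0)
    have e1 := hs (t, 1)
    have e2 := hs (t, 2)
    have e3 := hs (t, 3)
    fin_cases c
    · simp only [Fin.zero_eta] at *; omega
    · simp only [Fin.mk_one] at *; omega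
    · simp only [Fin.reduceFinMk] at *; omega
    · simp only [Fin.reduceFinMk] at *; omega
  ext i
  rcases h2 i with h3 | h3
  · rw [card_eq_zero, filter_eq_empty_iff] at h3
    exact ⟨fun h => absurd h (h3 (mem_univ j)), fun h => absurd h (h3 (mem_univ j'))⟩
  · have h4 : (univ.filter fun j => i ∈ x j) = univ := by
      apply eq_univ_of_card
      rw [h3, Fintype.card_fin]
    rw [filter_eq_self] at h4
    exact ⟨fun _ => h4 _ (mem_univ j'), fun _ => h4 _ (mem_univ j)⟩

theorem exists_nonvanishing {k : ℕ} (hk : 4 ≤ k) (g : (Fin k → Finset (Fin m × Fin 4)) → ℂ)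
    (hf : ∀ (π : Equiv.Perm (Fin m × Fin 4)) x, g (fun j => pm π (x j)) = g x)
    (hdiag : ∀ B, B.card = 2 * m → g (fun _ => B) ≠ 0)
    (hs : ∀ x, g x ≠ 0 → ∀ i, (univ.filter fun j => i ∈ x j).card = 0 ∨
      (univ.filter fun j => i ∈ x j).card = 1 ∨ (univ.filter fun j => i ∈ x j).card = k) :
    ∃ h : Fin k → Finset (Fin m × Fin 4) → ℂ, (∀ i, h i ∈ Harm (Fin m × Fin 4) (2 * m)) ∧
      form g h ≠ 0 := by
  classical
  let i0 : Fin k := ⟨0, by omega⟩
  let h : Fin k → Finset (Fin m × Fin 4) → ℂ := fun i => if i = i0 then prodH b4 else prodH c4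
  have hcard : ∀ j B, h j B ≠ 0 → ∀ t, (blk t B).card = 2 := by
    intro j B hB t
    by_cases hj : j = i0
    · simp only [h, if_pos hj] at hB
      exact prodH_card b4_card hB t
    · simp only [h, if_neg hj] at hB
      exact prodH_card c4_card hB t
  refine ⟨h, fun i => ?_, ?_⟩
  · by_cases hi : i = i0
    · simp only [h, if_pos hi]
      exact prodH_harm b4_card b4_harm
    · simp only [h, if_neg hi]
      exact prodH_harm c4_card c4_harm
  · -- only the constant tuples contribute
    have h1 : form g h = ∑ B, g (fun _ => B) * ∏ i, h i B := by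
      unfold form
      symm
      refine sum_of_injOn (fun B => (fun _ => B : Fin k → Finset (Fin m × Fin 4))) ?_ ?_ ?_ ?_
      · intro B _ C _ hBC
        exact congrFun hBC i0
      · intro B _
        exact mem_coe.mpr (mem_univ _)
      · intro x _ hx
        by_contra hne
        have hg : g x ≠ 0 := left_ne_zero_of_mul hne
        have hp : ∀ j, h j (x j) ≠ 0 := fun j => prod_ne_zero_iff.mp (right_ne_zero_of_mul hne) j
          (mem_univ j)
        apply hx
        refine ⟨x i0, mem_coe.mpr (mem_univ _), ?_⟩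
        funext j
        exact const_of_blk hk x (fun j t => hcard j _ (hp j) t) (hs x hg) i0 j
      · intro B _
        rfl
    -- the diagonal values are constant
    let B0 : Finset (Fin m × Fin 4) := univ.filter fun z => z.2 = 0 ∨ z.2 = 1
    have hB0 : ∀ t, blk t B0 = {0, 1} := by
      intro t
      ext c
      rw [mem_blk]
      simp [B0]
    have hB0c : B0.card = 2 * m := card_of_blk fun t => by rw [hB0]; rfl
    have hconst : ∀ B, B.card = 2 * m → g (fun _ => B) = g (fun _ => B0) := by
      intro B hB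
      obtain ⟨π, -, hπ⟩ := exists_pm ∅ B0 B (by rw [hB0c, hB]) (by simp)
      have := hf π (fun _ => B0)
      simp only [hπ] at this
      exact this
    have hprod : ∀ B : Finset (Fin m × Fin 4), ∏ i, h i B = ((∏ t, q4 (blk t B) : ℕ) : ℂ) := by
      intro B
      rw [← mul_prod_erase univ _ (mem_univ i0)]
      have e1 : h i0 B = prodH b4 B := by simp [h]
      have e2 : ∏ x ∈ univ.erase i0, h x B = prodH c4 B ^ (k - 1) := by
        rw [prod_congr rfl (g := fun _ => prodH c4 B)]
        · rw [prod_const, card_erase_of_mem (mem_univ i0), card_univ, Fintype.card_fin]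
        · intro j hj
          simp only [h, if_neg (ne_of_mem_erase hj)]
      rw [e1, e2]
      unfold prodH
      rw [← prod_pow, ← prod_mul_distrib, Nat.cast_prod]
      refine prod_congr rfl fun t _ => ?_
      rcases bc4 (blk t B) with ⟨h2 | h2, h3⟩ | ⟨h2, h3, h4⟩
      · rw [h2, h3]; simp
      · rw [h2, h3]
        have : k - 1 ≠ 0 := by omega
        simp [this]
      · rw [h2, h3, h4]; simp
    have h2 : form g h = g (fun _ => B0) *
        ((∑ B : Finset (Fin m × Fin 4), ∏ t : Fin m, q4 (blk t B) : ℕ) : ℂ) := by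
      rw [h1, Nat.cast_sum, mul_sum]
      refine sum_congr rfl fun B _ => ?_
      by_cases hB : B.card = 2 * m
      · rw [hconst B hB, hprod]
      · have h3 : ∏ t, q4 (blk t B) = 0 := by
          by_contra hne
          apply hB
          apply card_of_blk
          intro t
          have h4 := prod_ne_zero_iff.mp hne t (mem_univ t)
          have h5 : blk t B = {0, 1} ∨ blk t B = {2, 3} := by
            by_contra h6
            exact h4 (if_neg h6)
          rcases h5 with h5 | h5 <;> rw [h5] <;> rfl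
        rw [hprod, h3]
        simp
    rw [h2]
    apply mul_ne_zero (hdiag B0 hB0c)
    have h3 : 0 < ∑ B : Finset (Fin m × Fin 4), ∏ t, q4 (blk t B) := by
      refine lt_of_lt_of_le ?_ (single_le_sum (f := fun B => ∏ t, q4 (blk t B))
        (fun _ _ => Nat.zero_le _) (mem_univ B0))
      apply prod_pos
      intro t _
      rw [hB0]
      decide
    exact_mod_cast h3.ne'

end Pool.Agent.H148.SF
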