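import Pool.Agent.H148.SF.Bound

/-!
# Slice rank of invariant tensors

`A` is a finite set with a transitive set of permutations, and `M i` are invariant subspaces of
`A → ℂ` in which the functions fixed by the stabiliser of a point form a line. If an invariant
tensor does not vanish on the product of the `M i` then its slice rank is at least the smallest
dimension of the `M i` (`slice_bound`).
-/

set_option autoImplicit false

namespace Pool.Agent.H148.SF

open Finset Pool.Agent.H148.SR
open scoped ComplexConjugate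

universe v

variable {A : Type v} [Fintype A] {k : ℕ}

/-- the sum of the squares of the coefficients with one index fixed -/
theorem marginal' {D : Fin k → ℕ} (f : (Fin k → A) → ℂ) (b : ∀ i, Fin (D i) → A → ℂ)
    (P : Fin k → A → A → ℂ)
    (hP : ∀ i, (fun x y => ∑ s, b i s x * conj (b i s y)) = P i) (i : Fin k) (a : Fin (D i)) :
    ∑ s ∈ (univ : Finset (∀ i, Fin (D i))).filter (fun s => s i = a),
      (form f (fun j => b j (s j)) * conj (form f (fun j => b j (s j)))) =
    ∑ x, ∑ y, f x * conj (f y) *
      ∏ j, (if j = i then b i a (x i) * conj (b i a (y i)) else P j (x j) (y j)) := by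
  classical
  have h1 : ∀ s : ∀ i, Fin (D i), form f (fun j => b j (s j)) * conj (form f (fun j => b j (s j))) =
      ∑ x, ∑ y, f x * conj (f y) * ∏ j, (b j (s j) (x j) * conj (b j (s j) (y j))) := by
    intro s
    unfold form
    rw [map_sum, sum_mul_sum]
    refine sum_congr rfl fun x _ => sum_congr rfl fun y _ => ?_
    rw [prod_mul_distrib, map_mul, map_prod]
    ring
  rw [sum_filter]
  have h2 : ∀ x y : Fin k → A,
      ∏ j, (if j = i then b i a (x i) * conj (b i a (y i)) else P j (x j) (y j)) =
      ∑ s : ∀ i, Fin (D i),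
        if s i = a then ∏ j, (b j (s j) (x j) * conj (b j (s j) (y j))) else 0 := by
    intro x y
    have h3 : ∀ j, (if j = i then b i a (x i) * conj (b i a (y i)) else P j (x j) (y j)) =
        ∑ t ∈ (univ : Finset (Fin (D j))), (if (∀ h : j = i, h ▸ t = a) then
          b j t (x j) * conj (b j t (y j)) else 0) := by
      intro j
      by_cases hj : j = i
      · subst hj
        simp
      · rw [if_neg hj]
        have h4 : ∀ t : Fin (D j), (∀ h : j = i, h ▸ t = a) := fun t h => absurd h hj
        simp only [h4]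
        rw [← hP j]
        simp
    rw [prod_congr rfl fun j _ => h3 j, prod_univ_sum, Fintype.piFinset_univ]
    refine sum_congr rfl fun s _ => ?_
    by_cases hs : s i = a
    · rw [if_pos hs]
      refine prod_congr rfl fun j _ => ?_
      rw [if_pos]
      rintro rfl
      exact hs
    · rw [if_neg hs]
      apply prod_eq_zero (mem_univ i)
      rw [if_neg]
      intro h
      exact hs (h rfl)
  simp_rw [h2, mul_sum]
  rw [sum_congr rfl fun x _ => sum_comm, sum_comm]
  refine sum_congr rfl fun s _ => ?_
  by_cases hs : s i = a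
  · simp only [hs, if_true]
    rw [h1]
  · simp only [hs, if_false, mul_zero, sum_const_zero]

theorem form_expand' {D : Fin k → ℕ} (f : (Fin k → A) → ℂ) (b : ∀ i, Fin (D i) → A → ℂ)
    (c : ∀ i, Fin (D i) → ℂ) :
    form f (fun i => ∑ s, c i s • b i s) =
      ∑ s : ∀ i, Fin (D i), (∏ i, c i (s i)) * form f (fun i => b i (s i)) := by
  classical
  unfold form
  have h1 : ∀ x : Fin k → A, ∏ i, (∑ s, c i s • b i s) (x i) =
      ∑ s : ∀ i, Fin (D i), ∏ i, (c i (s i) * b i (s i) (x i)) := by
    intro x
    have : ∀ i, (∑ s, c i s • b i s) (x i) =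
        ∑ s ∈ (univ : Finset (Fin (D i))), c i s * b i s (x i) := by
      intro i
      rw [Finset.sum_apply]
      rfl
    rw [prod_congr rfl fun i _ => this i, prod_univ_sum, Fintype.piFinset_univ]
  simp_rw [h1, mul_sum]
  rw [sum_comm]
  refine sum_congr rfl fun s _ => sum_congr rfl fun x _ => ?_
  rw [prod_mul_distrib]
  ring

theorem le_of_marginals' (M : Fin k → Submodule ℂ (A → ℂ)) (P : Fin k → A → A → ℂ)
    (hP : ∀ i, IsKernel (M i) (P i))
    (f : (Fin k → A) → ℂ) (h : Fin k → A → ℂ) (hM : ∀ i, h i ∈ M i) (hne : form f h ≠ 0)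
    (c : Fin k → ℂ)
    (hc : ∀ i, ∀ v ∈ M i, ∑ x, ∑ y, f x * conj (f y) *
      ∏ j, (if j = i then v (x i) * conj (v (y i)) else P j (x j) (y j)) =
        c i * ∑ a, v a * conj (v a))
    (D0 : ℕ) (hD0 : ∀ i, D0 ≤ Module.finrank ℂ (M i))
    (R : ℕ) (hR : SliceRankLE f R) : D0 ≤ R := by
  classical
  obtain ⟨V, r, hr, hV, h0⟩ := subspaces_of_slices f R hR
  obtain ⟨D, hD⟩ : ∃ D : Fin k → ℕ, ∀ i, Module.finrank ℂ (M i) = D i := ⟨_, fun _ => rfl⟩
  have hex : ∀ i, ∃ (b : Fin (D i) → A → ℂ) (good : Finset (Fin (D i))),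
      (∀ s, b s ∈ M i) ∧ (∀ s ∈ good, b s ∈ V i) ∧
      D i + Module.finrank ℂ (V i) ≤ good.card + Fintype.card A ∧
      (∀ s, ∑ a, b s a * conj (b s a) = 1) ∧
      IsKernel (M i) (fun x y => ∑ s, b s x * conj (b s y)) ∧
      (∀ v ∈ M i, ∃ c : Fin (D i) → ℂ, v = ∑ s, c s • b s) := by
    intro i
    rw [← hD i]
    exact exists_onb (M i) (V i)
  choose b good hbM hgood hcard hnorm hker hspan using hex
  let q : (∀ i, Fin (D i)) → ℝ := fun s => Complex.normSq (form f (fun j => b j (s j)))
  have hq : ∀ s, (q s : ℂ) =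
      form f (fun j => b j (s j)) * conj (form f (fun j => b j (s j))) := by
    intro s
    rw [Complex.mul_conj]
  have hm : ∀ i a, ∑ s ∈ (univ : Finset (∀ i, Fin (D i))).filter (fun s => s i = a), q s =
      (c i).re := by
    intro i a
    have h1 := marginal' f b P (fun i => (hker i).unique (hP i)) i a
    rw [hc i _ (hbM i a), hnorm i a, mul_one] at h1
    rw [← h1, ← Complex.ofReal_re (∑ s ∈ _, q s)]
    congr 1
    push_cast
    exact sum_congr rfl fun s _ => hq s
  have hq0 : ∀ s, 0 ≤ q s := fun s => Complex.normSq_nonneg _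
  have htot : ∀ i, ∑ s, q s = D i * (c i).re := by
    intro i
    rw [← sum_fiberwise (s := univ) (g := fun s : ∀ i, Fin (D i) => s i)]
    rw [sum_congr rfl fun a _ => hm i a]
    simp
  have hpos : 0 < ∑ s, q s := by
    rcases (sum_nonneg fun s (_ : s ∈ (univ : Finset (∀ i, Fin (D i)))) => hq0 s).lt_or_eq
      with h1 | h1
    · exact h1
    · exfalso
      apply hne
      have h2 := (sum_eq_zero_iff_of_nonneg (fun s _ => hq0 s)).mp h1.symm
      choose cf hcf using fun i => hspan i (h i) (hM i)
      have h3 : h = fun i => ∑ s, cf i s • b i s := funext hcf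
      rw [h3, form_expand']
      refine sum_eq_zero fun s _ => ?_
      have h4 : form f (fun j => b j (s j)) = 0 := Complex.normSq_eq_zero.mp (h2 s (mem_univ s))
      rw [h4, mul_zero]
  have hun : ∑ s, q s ≤ ∑ i, ∑ a ∈ (good i)ᶜ, (c i).re := by
    calc ∑ s, q s ≤ ∑ s, ∑ i, (if s i ∉ good i then q s else 0) := by
          refine sum_le_sum fun s _ => ?_
          by_cases hs : ∀ i, s i ∈ good i
          · have : q s = 0 := by
              have h5 : form f (fun j => b j (s j)) = 0 :=
                h0 (fun j => b j (s j)) fun i => hgood i _ (hs i)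
              change Complex.normSq _ = 0
              rw [h5, map_zero]
            rw [this]
            exact sum_nonneg fun i _ => by split_ifs <;> exact le_rfl
          · push Not at hs
            obtain ⟨i, hi⟩ := hs
            refine le_trans ?_ (single_le_sum (f := fun i => if s i ∉ good i then q s else 0)
              (fun j _ => ?_) (mem_univ i))
            · simp [hi]
            · split_ifs <;> first | exact le_rfl | exact hq0 s
      _ = ∑ i, ∑ s, (if s i ∉ good i then q s else 0) := sum_comm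
      _ = ∑ i, ∑ a ∈ (good i)ᶜ, (c i).re := by
          refine sum_congr rfl fun i _ => ?_
          rw [← sum_filter]
          rw [← sum_fiberwise_of_maps_to (t := (good i)ᶜ) (g := fun s : ∀ i, Fin (D i) => s i)]
          · refine sum_congr rfl fun a ha => ?_
            rw [← hm i a, filter_filter]
            refine sum_congr ?_ fun _ _ => rfl
            ext s
            simp only [mem_filter, mem_univ, true_and]
            constructor
            · exact fun h => h.2
            · intro h
              refine ⟨?_, h⟩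
              rw [h]
              exact mem_compl.mp ha
          · intro s hs
            exact mem_compl.mpr (mem_filter.mp hs).2
  have hcpos : ∀ i, 0 ≤ (c i).re := by
    intro i
    by_contra hneg
    push Not at hneg
    have h9 := htot i
    have : (D i : ℝ) * (c i).re ≤ 0 := mul_nonpos_of_nonneg_of_nonpos (Nat.cast_nonneg _) hneg.le
    linarith
  have hfin : (D0 : ℝ) * ∑ s, q s ≤ R * ∑ s, q s := by
    calc (D0 : ℝ) * ∑ s, q s ≤ D0 * ∑ i, ∑ a ∈ (good i)ᶜ, (c i).re := by
          exact mul_le_mul_of_nonneg_left hun (Nat.cast_nonneg _)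
      _ = ∑ i, ((good i)ᶜ.card : ℝ) * (D0 * (c i).re) := by
          rw [mul_sum]
          refine sum_congr rfl fun i _ => ?_
          rw [sum_const, nsmul_eq_mul]
          ring
      _ ≤ ∑ i, (r i : ℝ) * ∑ s, q s := by
          refine sum_le_sum fun i _ => ?_
          have h6 := hcard i
          have h7 := hV i
          have h8 : (good i)ᶜ.card + (good i).card = D i := by
            rw [card_compl, Fintype.card_fin]
            have := card_le_univ (good i)
            rw [Fintype.card_fin] at this
            omega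
          have h9 : (good i)ᶜ.card ≤ r i := by omega
          have h10 : ((good i)ᶜ.card : ℝ) ≤ r i := by exact_mod_cast h9
          have h11 : (D0 : ℝ) * (c i).re ≤ ∑ s, q s := by
            rw [htot i]
            refine mul_le_mul_of_nonneg_right ?_ (hcpos i)
            have := hD0 i
            rw [hD i] at this
            exact_mod_cast this
          have h12 : 0 ≤ (D0 : ℝ) * (c i).re := mul_nonneg (Nat.cast_nonneg _) (hcpos i)
          calc ((good i)ᶜ.card : ℝ) * (D0 * (c i).re) ≤ (r i : ℝ) * (D0 * (c i).re) :=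
                mul_le_mul_of_nonneg_right h10 h12
            _ ≤ (r i : ℝ) * ∑ s, q s := mul_le_mul_of_nonneg_left h11 (Nat.cast_nonneg _)
      _ = R * ∑ s, q s := by
          rw [← sum_mul, ← hr]
          push_cast
          rfl
  have := le_of_mul_le_mul_right hfin hpos
  exact_mod_cast this

/-- `M` is invariant, and the functions in `M` fixed by the stabiliser of a point form a line -/
structure Homog (G : Set (Equiv.Perm A)) (M : Submodule ℂ (A → ℂ)) : Prop where
  inv : ∀ g ∈ G, ∀ v ∈ M, (fun a => v (g a)) ∈ M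
  inv' : ∀ g ∈ G, ∀ v ∈ M, (fun a => v (g.symm a)) ∈ M
  rad : ∀ a, ∀ u ∈ M, (∀ g ∈ G, g a = a → ∀ b, u (g b) = u b) → u a = 0 → u = 0

variable {G : Set (Equiv.Perm A)}

theorem ker_inv {M : Submodule ℂ (A → ℂ)} (hM : Homog G M) {P : A → A → ℂ} (hP : IsKernel M P)
    {g : Equiv.Perm A} (hg : g ∈ G) (a b : A) : P (g a) (g b) = P a b := by
  have h : IsKernel M (fun a b => P (g a) (g b)) := by
    constructor
    · intro a
      exact hM.inv g hg _ (hP.mem (g a))
    · intro v hv b
      have h1 := hP.rep _ (hM.inv' g hg v hv) (g b)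
      simp only [Equiv.symm_apply_apply] at h1
      rw [h1, ← Equiv.sum_comp g]
      refine sum_congr rfl fun a _ => ?_
      rw [Equiv.symm_apply_apply]
    · intro a b
      exact hP.symm _ _
  have := h.unique hP
  exact congrFun (congrFun this a) b

theorem ker_diag {M : Submodule ℂ (A → ℂ)} {P : A → A → ℂ} (hP : IsKernel M P)
    {b : A} (hb : P b b = 0) (x : A) : P x b = 0 := by
  have h1 : P b b = ∑ x, P b x * P x b := hP.rep _ (hP.mem b) b
  have h2 : ∀ x, P b x * P x b = (Complex.normSq (P x b) : ℂ) := by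
    intro x
    rw [← hP.symm x b, mul_comm, Complex.mul_conj]
  rw [hb, sum_congr rfl fun x _ => h2 x, ← Complex.ofReal_sum] at h1
  have h3 : ∑ x, Complex.normSq (P x b) = 0 := by exact_mod_cast h1.symm
  exact Complex.normSq_eq_zero.mp
    ((sum_eq_zero_iff_of_nonneg fun x _ => Complex.normSq_nonneg _).mp h3 x (mem_univ x))

theorem schur' (htr : ∀ a b : A, ∃ g ∈ G, g a = b) {M : Submodule ℂ (A → ℂ)} (hM : Homog G M)
    {P K : A → A → ℂ} (hP : IsKernel M P) (hK : ∀ a, (fun b => K a b) ∈ M)
    (hinv : ∀ g ∈ G, ∀ a b, K (g a) (g b) = K a b) :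
    ∃ c : ℂ, ∀ a b, K a b = c * P b a := by
  have hone : ∀ a b, K a a * P b a = P a a * K a b := by
    intro a b
    have h1 : (K a a • (fun b => P b a) - P a a • (fun b => K a b)) = 0 := by
      apply hM.rad a
      · exact Submodule.sub_mem _ (Submodule.smul_mem _ _ (hP.mem a))
          (Submodule.smul_mem _ _ (hK a))
      · intro g hg hga b
        have h2 := ker_inv hM hP hg b a
        have h3 := hinv g hg a b
        rw [hga] at h2 h3
        simp only [Pi.sub_apply, Pi.smul_apply, smul_eq_mul]
        rw [h2, h3]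
      · simp only [Pi.sub_apply, Pi.smul_apply, smul_eq_mul]
        ring
    have h2 := congrFun h1 b
    simp only [Pi.sub_apply, Pi.smul_apply, smul_eq_mul, Pi.zero_apply] at h2
    exact sub_eq_zero.mp h2
  rcases isEmpty_or_nonempty A with hA | ⟨⟨a0⟩⟩
  · exact ⟨0, fun a => (hA.false a).elim⟩
  · have hd : ∀ a, P a a = P a0 a0 ∧ K a a = K a0 a0 := by
      intro a
      obtain ⟨g, hg, rfl⟩ := htr a0 a
      exact ⟨ker_inv hM hP hg a0 a0, hinv g hg a0 a0⟩
    by_cases hz : P a0 a0 = 0
    · refine ⟨0, fun a b => ?_⟩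
      rw [zero_mul]
      have h1 := hP.rep _ (hK a) b
      rw [h1]
      refine sum_eq_zero fun x _ => ?_
      rw [← hP.symm x b, ker_diag hP ((hd b).1.trans hz) x, map_zero, zero_mul]
    · refine ⟨K a0 a0 / P a0 a0, fun a b => ?_⟩
      have h1 := hone a b
      rw [(hd a).1, (hd a).2] at h1
      field_simp
      rw [mul_comm]
      exact h1.symm

open Classical in
/-- the marginal of `f` for the index `i` -/
noncomputable def kap' (f : (Fin k → A) → ℂ) (P : Fin k → A → A → ℂ) (i : Fin k) (a b : A) : ℂ :=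
  ∑ x, ∑ y, (if x i = a ∧ y i = b then f x * conj (f y) *
    ∏ j, (if j = i then 1 else P j (x j) (y j)) else 0)

theorem kap_inv' (f : (Fin k → A) → ℂ) (P : Fin k → A → A → ℂ) {g : Equiv.Perm A}
    (hf : ∀ x, f (fun j => g (x j)) = f x)
    (hP : ∀ i a b, P i (g a) (g b) = P i a b) (i : Fin k)
    (a b : A) : kap' f P i (g a) (g b) = kap' f P i a b := by
  classical
  unfold kap'
  let e : (Fin k → A) ≃ (Fin k → A) := Equiv.arrowCongr (Equiv.refl _) g
  have he : ∀ x, e x = fun j => g (x j) := fun x => rfl
  rw [← Equiv.sum_comp e]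
  refine sum_congr rfl fun x _ => ?_
  rw [← Equiv.sum_comp e]
  refine sum_congr rfl fun y _ => ?_
  rw [he, he, hf, hf]
  have h1 : (g (x i) = g a ∧ g (y i) = g b) ↔ (x i = a ∧ y i = b) := by
    rw [g.injective.eq_iff, g.injective.eq_iff]
  by_cases h : x i = a ∧ y i = b
  · rw [if_pos h, if_pos (h1.mpr h)]
    congr 1
    refine prod_congr rfl fun j _ => ?_
    split_ifs
    · rfl
    · exact hP _ _ _
  · rw [if_neg h, if_neg (fun h' => h (h1.mp h'))]

theorem kap_spec' (f : (Fin k → A) → ℂ) (P : Fin k → A → A → ℂ) (i : Fin k) (v : A → ℂ) :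
    ∑ x, ∑ y, f x * conj (f y) *
      ∏ j, (if j = i then v (x i) * conj (v (y i)) else P j (x j) (y j)) =
    ∑ a, ∑ b, v a * conj (v b) * kap' f P i a b := by
  classical
  unfold kap'
  have h1 : ∀ x y : Fin k → A, f x * conj (f y) *
      ∏ j, (if j = i then v (x i) * conj (v (y i)) else P j (x j) (y j)) =
      ∑ a, ∑ b, v a * conj (v b) * (if x i = a ∧ y i = b then f x * conj (f y) *
        ∏ j, (if j = i then 1 else P j (x j) (y j)) else 0) := by
    intro x y
    rw [sum_eq_single (x i), sum_eq_single (y i)]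
    · rw [if_pos ⟨rfl, rfl⟩]
      have h2 : ∏ j, (if j = i then v (x i) * conj (v (y i)) else P j (x j) (y j)) =
          v (x i) * conj (v (y i)) * ∏ j, (if j = i then 1 else P j (x j) (y j)) := by
        rw [← mul_prod_erase univ _ (mem_univ i), ← mul_prod_erase univ
          (fun j => if j = i then 1 else P j (x j) (y j)) (mem_univ i)]
        rw [if_pos rfl, if_pos rfl, one_mul]
        congr 1
        refine prod_congr rfl fun j hj => ?_
        rw [if_neg (ne_of_mem_erase hj), if_neg (ne_of_mem_erase hj)]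
      rw [h2]
      ring
    · intro b _ hb
      rw [if_neg (fun h => hb h.2.symm), mul_zero]
    · intro h
      exact absurd (mem_univ _) h
    · intro a _ ha
      refine sum_eq_zero fun b _ => ?_
      rw [if_neg (fun h => ha h.1.symm), mul_zero]
    · intro h
      exact absurd (mem_univ _) h
  simp_rw [h1, mul_sum]
  rw [sum_congr rfl fun x _ => sum_comm, sum_comm]
  refine sum_congr rfl fun a _ => ?_
  rw [sum_congr rfl fun x _ => sum_comm, sum_comm]

theorem marg' (htr : ∀ a b : A, ∃ g ∈ G, g a = b) (M : Fin k → Submodule ℂ (A → ℂ))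
    (hM : ∀ i, Homog G (M i)) {P : Fin k → A → A → ℂ} (hP : ∀ i, IsKernel (M i) (P i))
    (f : (Fin k → A) → ℂ) (hf : ∀ g ∈ G, ∀ x, f (fun j => g (x j)) = f x) (i : Fin k) :
    ∃ c : ℂ, ∀ v ∈ M i, ∑ x, ∑ y, f x * conj (f y) *
      ∏ j, (if j = i then v (x i) * conj (v (y i)) else P j (x j) (y j)) =
        c * ∑ a, v a * conj (v a) := by
  classical
  let K : A → A → ℂ := fun a b => ∑ a', ∑ b', P i a' a * P i b b' * kap' f P i a' b'
  obtain ⟨c, hc⟩ := schur' (P := P i) (K := K) htr (hM i) (hP i) (by
      intro a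
      have h1 : (fun b => K a b) =
          ∑ a', ∑ b', (P i a' a * kap' f P i a' b') • (fun b => P i b b') := by
        funext b
        simp only [K, Finset.sum_apply, Pi.smul_apply, smul_eq_mul]
        refine sum_congr rfl fun a' _ => sum_congr rfl fun b' _ => ?_
        ring
      rw [h1]
      exact Submodule.sum_mem _ fun a' _ => Submodule.sum_mem _ fun b' _ =>
        Submodule.smul_mem _ _ ((hP i).mem b'))
    (by
      intro g hg a b
      simp only [K]
      rw [← Equiv.sum_comp g]
      refine sum_congr rfl fun a' _ => ?_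
      rw [← Equiv.sum_comp g]
      refine sum_congr rfl fun b' _ => ?_
      rw [ker_inv (hM i) (hP i) hg, ker_inv (hM i) (hP i) hg,
        kap_inv' f P (hf g hg) (fun i a b => ker_inv (hM i) (hP i) hg a b)])
  refine ⟨c, fun v hv => ?_⟩
  rw [kap_spec']
  have hv1 : ∀ a', v a' = ∑ a, P i a' a * v a := (hP i).rep v hv
  have hv2 : ∀ b', conj (v b') = ∑ b, P i b b' * conj (v b) := by
    intro b'
    rw [hv1 b', map_sum]
    refine sum_congr rfl fun b _ => ?_
    rw [map_mul, (hP i).symm]
  have h3 : ∀ a' b', v a' * conj (v b') * kap' f P i a' b' =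
      ∑ a, ∑ b, v a * conj (v b) * (P i a' a * P i b b' * kap' f P i a' b') := by
    intro a' b'
    rw [hv1 a', hv2 b', sum_mul_sum, sum_mul]
    refine sum_congr rfl fun a _ => ?_
    rw [sum_mul]
    refine sum_congr rfl fun b _ => ?_
    ring
  have h4 : ∑ a', ∑ b', v a' * conj (v b') * kap' f P i a' b' =
      ∑ a, ∑ b, v a * conj (v b) * K a b := by
    simp_rw [h3, K, mul_sum]
    rw [sum_congr rfl fun x _ => sum_comm, sum_comm]
    refine sum_congr rfl fun a _ => ?_
    rw [sum_congr rfl fun x _ => sum_comm, sum_comm]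
  rw [h4, mul_sum, sum_comm]
  refine sum_congr rfl fun b _ => ?_
  have h5 : ∑ a, v a * conj (v b) * K a b = c * conj (v b) * ∑ a, P i b a * v a := by
    rw [mul_sum]
    refine sum_congr rfl fun a _ => ?_
    rw [hc a b]
    ring
  rw [h5, ← hv1 b]
  ring

/-- **Slice rank bound for invariant tensors.** -/
theorem slice_bound (htr : ∀ a b : A, ∃ g ∈ G, g a = b) (M : Fin k → Submodule ℂ (A → ℂ))
    (hM : ∀ i, Homog G (M i)) (f : (Fin k → A) → ℂ)
    (hf : ∀ g ∈ G, ∀ x, f (fun j => g (x j)) = f x)
    (h : Fin k → A → ℂ) (hh : ∀ i, h i ∈ M i) (hne : form f h ≠ 0)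
    (D0 : ℕ) (hD0 : ∀ i, D0 ≤ Module.finrank ℂ (M i))
    (R : ℕ) (hR : SliceRankLE f R) : D0 ≤ R := by
  have hP : ∀ i, ∃ P, IsKernel (M i) P := fun i => by
    obtain ⟨b, -, -, -, -, -, hP, -⟩ := exists_onb (M i) ⊤
    exact ⟨_, hP⟩
  choose P hP using hP
  choose c hc using fun i => marg' htr M hM hP f hf i
  exact le_of_marginals' M P hP f h hh hne c hc D0 hD0 R hR

end Pool.Agent.H148.SF
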