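import Pool.Agent.H148.SF.Degree
import Pool.Agent.H148.SF.Inv

/-!
# Functions invariant under permutations within blocks
-/

set_option autoImplicit false

namespace Pool.Agent.H148.SF

open Finset Pool.Agent.H148.SR

section dual

variable {A : Type} [Fintype A]

/-- a space of functions has a dual basis consisting of evaluations at points -/
theorem exists_dual : ∀ (D : ℕ) (M : Submodule ℂ (A → ℂ)), Module.finrank ℂ M = D →
    ∃ (E : Fin D → A) (h : Fin D → A → ℂ), (∀ i, h i ∈ M) ∧
      ∀ i j, h i (E j) = if i = j then 1 else 0 := by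
  intro D
  induction D with
  | zero =>
    intro M _
    exact ⟨fun i => i.elim0, fun i => i.elim0, fun i => i.elim0, fun i => i.elim0⟩
  | succ D ih =>
    intro M hM
    have hne : ∃ v : M, v ≠ 0 := by
      rw [← Module.finrank_pos_iff_exists_ne_zero (R := ℂ)]
      omega
    obtain ⟨⟨v, hv⟩, hv0⟩ := hne
    have hva : ∃ a, v a ≠ 0 := by
      by_contra hcon
      push Not at hcon
      exact hv0 (Subtype.ext (funext hcon))
    obtain ⟨a, ha⟩ := hva
    let L : M →ₗ[ℂ] ℂ := (LinearMap.proj a : (A → ℂ) →ₗ[ℂ] ℂ).domRestrict M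
    let M' : Submodule ℂ (A → ℂ) := (LinearMap.ker L).map M.subtype
    have hM' : Module.finrank ℂ M' = D := by
      have h1 : Module.finrank ℂ M' = Module.finrank ℂ (LinearMap.ker L) :=
        (Submodule.equivMapOfInjective M.subtype (Submodule.injective_subtype M)
          (LinearMap.ker L)).finrank_eq.symm
      have h2 := LinearMap.finrank_range_add_finrank_ker L
      have h3 : Module.finrank ℂ (LinearMap.range L) = 1 := by
        have : LinearMap.range L = ⊤ := by
          rw [LinearMap.range_eq_top]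
          intro c
          refine ⟨(c / v a) • ⟨v, hv⟩, ?_⟩
          change (c / v a) * v a = c
          field_simp
        rw [this]
        simp
      omega
    have hmem : ∀ u, u ∈ M' ↔ u ∈ M ∧ u a = 0 := by
      intro u
      constructor
      · intro hu
        obtain ⟨w, hw, rfl⟩ := Submodule.mem_map.mp hu
        exact ⟨w.2, LinearMap.mem_ker.mp hw⟩
      · rintro ⟨hu, hu0⟩
        exact Submodule.mem_map.mpr ⟨⟨u, hu⟩, LinearMap.mem_ker.mpr hu0, rfl⟩
    obtain ⟨E, h, hh1, hh2⟩ := ih M' hM'
    let w : A → ℂ := (v a)⁻¹ • v - ∑ j, ((v a)⁻¹ * v (E j)) • h j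
    have hwM : w ∈ M := Submodule.sub_mem _ (Submodule.smul_mem _ _ hv)
      (Submodule.sum_mem _ fun j _ => Submodule.smul_mem _ _ ((hmem _).mp (hh1 j)).1)
    have hwa : w a = 1 := by
      have h4 : ∀ j, h j a = 0 := fun j => ((hmem _).mp (hh1 j)).2
      simp only [w, Pi.sub_apply, Pi.smul_apply, Finset.sum_apply, smul_eq_mul, h4]
      simp [ha]
    have hwE : ∀ i, w (E i) = 0 := by
      intro i
      simp only [w, Pi.sub_apply, Pi.smul_apply, Finset.sum_apply, smul_eq_mul, hh2]
      simp
    refine ⟨Fin.cons a E, Fin.cons w h, ?_, ?_⟩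
    · intro i
      refine Fin.cases ?_ (fun i => ?_) i
      · exact hwM
      · exact ((hmem _).mp (hh1 i)).1
    · intro i j
      refine Fin.cases ?_ (fun i => ?_) i
      · refine Fin.cases ?_ (fun j => ?_) j
        · simp [hwa]
        · simp [hwE, Fin.succ_ne_zero, eq_comm]
      · refine Fin.cases ?_ (fun j => ?_) j
        · simp [((hmem _).mp (hh1 i)).2, Fin.succ_ne_zero]
        · simp [hh2]

end dual

variable {m q : ℕ}

/-- the subsets of size `2m` of a block -/
abbrev Y (m : ℕ) : Type := {B : Finset (Fin m × Fin 4) // B.card = 2 * m}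

theorem pm_one {Ω : Type} [Fintype Ω] [DecidableEq Ω] (B : Finset Ω) : pm (1 : Equiv.Perm Ω) B = B := by
  rw [pm_apply]
  ext z
  rw [mem_map_equiv]
  rfl

theorem ext0_add {Ω : Type} {l : ℕ} (u v : {B : Finset Ω // B.card = l} → ℂ) :
    ext0 (u + v) = ext0 u + ext0 v := by
  funext B
  simp only [ext0, Pi.add_apply]
  split_ifs <;> simp

theorem ext0_smul {Ω : Type} {l : ℕ} (c : ℂ) (u : {B : Finset Ω // B.card = l} → ℂ) :
    ext0 (c • u) = c • ext0 u := by
  funext B
  simp only [ext0, Pi.smul_apply]
  split_ifs <;> simp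

/-- the harmonic functions on the layer of a block -/
def HY (m : ℕ) : Submodule ℂ (Y m → ℂ) where
  carrier := {u | ext0 u ∈ Harm (Fin m × Fin 4) (2 * m)}
  zero_mem' := by
    have : ext0 (0 : Y m → ℂ) = 0 := by
      funext B
      simp [ext0]
    change ext0 (0 : Y m → ℂ) ∈ Harm (Fin m × Fin 4) (2 * m)
    rw [this]
    exact Submodule.zero_mem _
  add_mem' := by
    intro u v hu hv
    change ext0 (u + v) ∈ Harm (Fin m × Fin 4) (2 * m)
    rw [ext0_add]
    exact Submodule.add_mem _ hu hv
  smul_mem' := by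
    intro c u hu
    change ext0 (c • u) ∈ Harm (Fin m × Fin 4) (2 * m)
    rw [ext0_smul]
    exact Submodule.smul_mem _ _ hu

theorem mem_HY (u : Y m → ℂ) : u ∈ HY m ↔ ext0 u ∈ Harm (Fin m × Fin 4) (2 * m) := Iff.rfl

theorem restrict_HY {v : Finset (Fin m × Fin 4) → ℂ} (hv : v ∈ Harm (Fin m × Fin 4) (2 * m)) :
    (fun B : Y m => v B.1) ∈ HY m := by
  rw [mem_HY]
  have : ext0 (fun B : Y m => v B.1) = v := by
    funext B
    unfold ext0
    split_ifs with h
    · rfl
    · exact (hv.1 B h).symm
  rwa [this]

theorem HY_dim (m : ℕ) : catalan (2 * m) ≤ Module.finrank ℂ (HY m) := by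
  refine (catalan_le m).trans ?_
  let g : Harm (Fin m × Fin 4) (2 * m) →ₗ[ℂ] HY m :=
    { toFun := fun v => ⟨fun B => v.1 B.1, restrict_HY v.2⟩
      map_add' := fun _ _ => rfl
      map_smul' := fun _ _ => rfl }
  apply LinearMap.finrank_le_finrank_of_injective (f := g)
  intro u v huv
  apply Subtype.ext
  funext B
  by_cases hB : B.card = 2 * m
  · exact congrFun (congrArg Subtype.val huv) ⟨B, hB⟩
  · rw [u.2.1 B hB, v.2.1 B hB]

/-- functions harmonic in each block -/
def Mq (q m : ℕ) : Submodule ℂ ((Fin q → Y m) → ℂ) where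
  carrier := {v | ∀ b x, (fun B : Y m => v (Function.update x b B)) ∈ HY m}
  zero_mem' := fun _ _ => Submodule.zero_mem _
  add_mem' := fun hu hv b x => Submodule.add_mem _ (hu b x) (hv b x)
  smul_mem' := fun c _ hu b x => Submodule.smul_mem _ c (hu b x)

/-- the action on the layer of a block -/
def yl (π : Equiv.Perm (Fin m × Fin 4)) : Equiv.Perm (Y m) :=
  (pm π).subtypeEquiv fun B => by rw [card_pm]

theorem yl_coe (π : Equiv.Perm (Fin m × Fin 4)) (B : Y m) : (yl π B).1 = pm π B.1 := rfl

def cy (π : Fin q → Equiv.Perm (Fin m × Fin 4)) : Equiv.Perm (Fin q → Y m) :=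
  Equiv.piCongrRight fun b => yl (π b)

theorem cy_apply (π : Fin q → Equiv.Perm (Fin m × Fin 4)) (x : Fin q → Y m) (b : Fin q) :
    cy π x b = yl (π b) (x b) := rfl

theorem cy_update (π : Fin q → Equiv.Perm (Fin m × Fin 4)) (x : Fin q → Y m) (b : Fin q) (B : Y m) :
    cy π (Function.update x b B) = Function.update (cy π x) b (yl (π b) B) := by
  funext s
  rw [cy_apply]
  by_cases hs : s = b
  · subst hs
    simp
  · rw [Function.update_of_ne hs, Function.update_of_ne hs, cy_apply]

theorem HY_yl (π : Equiv.Perm (Fin m × Fin 4)) {u : Y m → ℂ} (hu : u ∈ HY m) :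
    (fun B => u (yl π B)) ∈ HY m := by
  rw [mem_HY] at hu ⊢
  have h1 := harm_comp π hu
  have h2 : ext0 (fun B => u (yl π B)) = fun B => ext0 u (pm π B) := by
    funext B
    unfold ext0
    by_cases hB : B.card = 2 * m
    · rw [dif_pos hB, dif_pos (by rw [card_pm, hB])]
      rfl
    · rw [dif_neg hB, dif_neg (by rw [card_pm]; exact hB)]
  rwa [h2]

theorem Mq_cy (π : Fin q → Equiv.Perm (Fin m × Fin 4)) {v : (Fin q → Y m) → ℂ}
    (hv : v ∈ Mq q m) : (fun x => v (cy π x)) ∈ Mq q m := by
  intro b x
  have h1 := HY_yl (π b) (hv b (cy π x))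
  simp only [cy_update]
  exact h1

theorem cy_trans (a b : Fin q → Y m) : ∃ g ∈ Set.range (cy (q := q) (m := m)), g a = b := by
  have h1 : ∀ s, ∃ π : Equiv.Perm (Fin m × Fin 4), pm π (a s).1 = (b s).1 := by
    intro s
    obtain ⟨π, -, hπ⟩ := exists_pm ∅ (a s).1 (b s).1 (by rw [(a s).2, (b s).2]) (by simp)
    exact ⟨π, hπ⟩
  choose π hπ using h1
  refine ⟨_, ⟨π, rfl⟩, ?_⟩
  funext s
  exact Subtype.ext (hπ s)

theorem homog_Mq : Homog (Set.range (cy (q := q) (m := m))) (Mq q m) := by
  constructor
  · rintro g ⟨π, rfl⟩ v hv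
    exact Mq_cy π hv
  · rintro g ⟨π, rfl⟩ v hv
    have h1 := Mq_cy (fun b => (π b)⁻¹) hv
    have h2 : ∀ x, (cy π).symm x = cy (fun b => (π b)⁻¹) x := by
      intro x
      rw [Equiv.symm_apply_eq]
      funext b
      apply Subtype.ext
      rw [cy_apply, yl_coe, cy_apply, yl_coe, pm_apply, pm_apply, map_map]
      ext z
      simp
    simp only [h2]
    exact h1
  · intro a u hu hrad h0
    -- one can change a coordinate to that of `a`
    have hone : ∀ (x : Fin q → Y m) (b : Fin q), u (Function.update x b (a b)) = 0 → u x = 0 := by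
      intro x b hx
      have h1 := hu b x
      rw [mem_HY] at h1
      have h2 : ext0 (fun B : Y m => u (Function.update x b B)) = 0 := by
        refine radial_zero (a b).2 h1 ?_ ?_
        · intro B C hBC hABC
          by_cases hB : B.card = 2 * m
          · obtain ⟨π, hπ1, hπ2⟩ := exists_pm (a b).1 B C hBC hABC
            have hC : C.card = 2 * m := by rw [← hBC, hB]
            unfold ext0
            rw [dif_pos hB, dif_pos hC]
            have h3 := hrad (cy (Function.update (fun _ => 1) b π)) ⟨_, rfl⟩ (by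
              funext s
              apply Subtype.ext
              rw [cy_apply, yl_coe]
              by_cases hs : s = b
              · subst hs
                rw [Function.update_self]
                exact hπ1
              · rw [Function.update_of_ne hs, pm_one]) (Function.update x b ⟨B, hB⟩)
            change u (Function.update x b ⟨B, hB⟩) = u (Function.update x b ⟨C, hC⟩)
            rw [← h3]
            congr 1
            funext s
            apply Subtype.ext
            rw [cy_apply, yl_coe]
            by_cases hs : s = b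
            · subst hs
              rw [Function.update_self, Function.update_self, Function.update_self]
              exact hπ2
            · rw [Function.update_of_ne hs, Function.update_of_ne hs, Function.update_of_ne hs,
                pm_one]
          · have hC : C.card ≠ 2 * m := by rw [← hBC]; exact hB
            unfold ext0
            rw [dif_neg hB, dif_neg hC]
        · unfold ext0
          rw [dif_pos (a b).2]
          exact hx
      have h4 := congrFun h2 (x b).1
      unfold ext0 at h4
      rw [dif_pos (x b).2] at h4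
      change u (Function.update x b ⟨(x b).1, (x b).2⟩) = 0 at h4
      have h5 : Function.update x b ⟨(x b).1, (x b).2⟩ = x := Function.update_eq_self b x
      rw [h5] at h4
      exact h4
    have key : ∀ (s : Finset (Fin q)) (x : Fin q → Y m), (∀ b, b ∉ s → x b = a b) → u x = 0 := by
      intro s
      induction s using Finset.induction_on with
      | empty =>
        intro x hx
        rw [show x = a from funext fun b => hx b (notMem_empty b), h0]
      | insert b s hb ih =>
        intro x hx
        apply hone x b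
        apply ih
        intro t ht
        by_cases htb : t = b
        · subst htb
          rw [Function.update_self]
        · rw [Function.update_of_ne htb]
          exact hx t (by
            rw [mem_insert, not_or]
            exact ⟨htb, ht⟩)
    funext x
    exact key univ x fun b hb => absurd (mem_univ b) hb

theorem prod_mem_Mq (h : Fin q → Y m → ℂ) (hh : ∀ b, h b ∈ HY m) :
    (fun x : Fin q → Y m => ∏ b, h b (x b)) ∈ Mq q m := by
  intro b x
  have h1 : (fun B : Y m => ∏ s, h s (Function.update x b B s)) =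
      (∏ s ∈ univ.erase b, h s (x s)) • h b := by
    funext B
    rw [← mul_prod_erase univ _ (mem_univ b), Function.update_self, Pi.smul_apply, smul_eq_mul,
      mul_comm]
    congr 1
    refine prod_congr rfl fun s hs => ?_
    rw [Function.update_of_ne (ne_of_mem_erase hs)]
  change (fun B : Y m => ∏ s, h s (Function.update x b B s)) ∈ HY m
  rw [h1]
  exact Submodule.smul_mem _ _ (hh b)

theorem Mq_dim (q m : ℕ) : catalan (2 * m) ^ q ≤ Module.finrank ℂ (Mq q m) := by
  classical
  obtain ⟨D, hD⟩ : ∃ D, Module.finrank ℂ (HY m) = D := ⟨_, rfl⟩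
  obtain ⟨E, h, hh1, hh2⟩ := exists_dual D (HY m) hD
  refine (Nat.pow_le_pow_left (HY_dim m) q).trans ?_
  rw [hD]
  let ev : Mq q m →ₗ[ℂ] ((Fin q → Fin D) → ℂ) :=
    { toFun := fun v z => v.1 (fun b => E (z b))
      map_add' := fun _ _ => rfl
      map_smul' := fun _ _ => rfl }
  let e : (Fin q → Fin D) → Mq q m := fun y =>
    ⟨fun x => ∏ b, h (y b) (x b), prod_mem_Mq (fun b => h (y b)) fun b => hh1 (y b)⟩
  have hev : ∀ y z, ev (e y) z = if y = z then 1 else 0 := by
    intro y z
    change ∏ b, h (y b) (E (z b)) = _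
    rw [prod_congr rfl fun b _ => hh2 (y b) (z b)]
    by_cases hyz : y = z
    · rw [if_pos hyz, hyz]
      simp
    · rw [if_neg hyz]
      obtain ⟨t, ht⟩ := Function.ne_iff.mp hyz
      exact prod_eq_zero (mem_univ t) (if_neg ht)
  have hsurj : Function.Surjective ev := by
    intro v
    refine ⟨∑ y, v y • e y, ?_⟩
    funext z
    rw [map_sum, Finset.sum_apply]
    rw [sum_eq_single z]
    · rw [map_smul, Pi.smul_apply, hev, if_pos rfl, smul_eq_mul, mul_one]
    · intro y _ hy
      rw [map_smul, Pi.smul_apply, hev, if_neg hy, smul_zero]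
    · intro h
      exact absurd (mem_univ _) h
  have h1 := LinearMap.finrank_le_finrank_of_surjective hsurj
  rw [Module.finrank_fintype_fun_eq_card] at h1
  simpa using h1

/-- the bound for functions invariant under the permutations within the blocks -/
theorem block_bound {k : ℕ} (hk : 4 ≤ k) (f : (Fin k → (Fin q → Y m)) → ℂ)
    (hf : ∀ (π : Fin q → Equiv.Perm (Fin m × Fin 4)) x, f (fun j => cy π (x j)) = f x)
    (x0 : Fin q → Y m) (hdiag : f (fun _ => x0) ≠ 0)
    (hs : ∀ x, f x ≠ 0 → ∀ b i, (univ.filter fun j => i ∈ (x j b).1).card = 0 ∨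
      (univ.filter fun j => i ∈ (x j b).1).card = 1 ∨
      (univ.filter fun j => i ∈ (x j b).1).card = k)
    (R : ℕ) (hR : SliceRankLE f R) : catalan (2 * m) ^ q ≤ R := by
  classical
  let i0 : Fin k := ⟨0, by omega⟩
  let ψ : Fin k → Finset (Fin m × Fin 4) → ℂ := fun i => if i = i0 then prodH b4 else prodH c4
  have hψ : ∀ i, ψ i ∈ Harm (Fin m × Fin 4) (2 * m) := by
    intro i
    by_cases hi : i = i0
    · simp only [ψ, if_pos hi]
      exact prodH_harm b4_card b4_harm
    · simp only [ψ, if_neg hi]
      exact prodH_harm c4_card c4_harm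
  have hcard : ∀ j B, ψ j B ≠ 0 → ∀ t, (blk t B).card = 2 := by
    intro j B hB t
    by_cases hj : j = i0
    · simp only [ψ, if_pos hj] at hB
      exact prodH_card b4_card hB t
    · simp only [ψ, if_neg hj] at hB
      exact prodH_card c4_card hB t
  let h : Fin k → (Fin q → Y m) → ℂ := fun j x => ∏ b, ψ j (x b).1
  have hh : ∀ j, h j ∈ Mq q m := fun j =>
    prod_mem_Mq (fun _ B => ψ j B.1) fun _ => restrict_HY (hψ j)
  have h1 : form f h = ∑ x : Fin q → Y m, f (fun _ => x) * ∏ i, h i x := by
    unfold form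
    symm
    refine sum_of_injOn (fun B => (fun _ => B : Fin k → (Fin q → Y m))) ?_ ?_ ?_ ?_
    · intro B _ C _ hBC
      exact congrFun hBC i0
    · intro B _
      exact mem_coe.mpr (mem_univ _)
    · intro x _ hx
      by_contra hne
      have hfx : f x ≠ 0 := left_ne_zero_of_mul hne
      have hp : ∀ j b, ψ j (x j b).1 ≠ 0 := fun j b =>
        prod_ne_zero_iff.mp (prod_ne_zero_iff.mp (right_ne_zero_of_mul hne) j (mem_univ j)) b
          (mem_univ b)
      apply hx
      refine ⟨x i0, mem_coe.mpr (mem_univ _), ?_⟩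
      funext j b
      apply Subtype.ext
      exact const_of_blk hk (fun j => (x j b).1) (fun j t => hcard j _ (hp j b) t) (hs x hfx b) i0 j
    · intro B _
      rfl
  have hprod : ∀ B : Finset (Fin m × Fin 4), ∏ i, ψ i B = ((∏ t, q4 (blk t B) : ℕ) : ℂ) := by
    intro B
    rw [← mul_prod_erase univ _ (mem_univ i0)]
    have e1 : ψ i0 B = prodH b4 B := by simp [ψ]
    have e2 : ∏ x ∈ univ.erase i0, ψ x B = prodH c4 B ^ (k - 1) := by
      rw [prod_congr rfl (g := fun _ => prodH c4 B)]
      · rw [prod_const, card_erase_of_mem (mem_univ i0), card_univ, Fintype.card_fin]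
      · intro j hj
        simp only [ψ, if_neg (ne_of_mem_erase hj)]
    rw [e1, e2]
    unfold prodH
    rw [← prod_pow, ← prod_mul_distrib, Nat.cast_prod]
    refine prod_congr rfl fun t _ => ?_
    rcases bc4 (blk t B) with ⟨h2 | h2, h3⟩ | ⟨h2, h3, h4⟩
    · rw [h2, h3]; simp
    · rw [h2, h3]
      have : k - 1 ≠ 0 := by omega
      simp [this]
    · rw [h2, h3, h4]; simp
  have hne : form f h ≠ 0 := by
    rw [h1]
    have h3 : ∀ x : Fin q → Y m, f (fun _ => x) = f (fun _ => x0) := by
      intro x
      obtain ⟨g, ⟨π, rfl⟩, hgx⟩ := cy_trans x0 x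
      have := hf π (fun _ => x0)
      simp only [hgx] at this
      exact this
    have h4 : ∀ x : Fin q → Y m, f (fun _ => x) * ∏ i, h i x =
        f (fun _ => x0) * ∏ b, ((∏ t, q4 (blk t (x b).1) : ℕ) : ℂ) := by
      intro x
      rw [h3 x]
      congr 1
      change ∏ i, ∏ b, ψ i (x b).1 = _
      rw [prod_comm]
      exact prod_congr rfl fun b _ => hprod _
    rw [sum_congr rfl fun x _ => h4 x, ← mul_sum]
    apply mul_ne_zero hdiag
    have h5 : ∑ x : Fin q → Y m, ∏ b, ((∏ t, q4 (blk t (x b).1) : ℕ) : ℂ) =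
        ∏ b : Fin q, ∑ B : Y m, ((∏ t, q4 (blk t B.1) : ℕ) : ℂ) := by
      rw [prod_univ_sum, Fintype.piFinset_univ]
    rw [h5, prod_const]
    apply pow_ne_zero
    rw [← Nat.cast_sum]
    let B0 : Finset (Fin m × Fin 4) := univ.filter fun z => z.2 = 0 ∨ z.2 = 1
    have hB0 : ∀ t, blk t B0 = {0, 1} := by
      intro t
      ext c
      rw [mem_blk]
      simp [B0]
    have hB0c : B0.card = 2 * m := card_of_blk fun t => by rw [hB0]; rfl
    have h6 : 0 < ∑ B : Y m, ∏ t, q4 (blk t B.1) := by
      refine lt_of_lt_of_le ?_ (single_le_sum (f := fun B : Y m => ∏ t, q4 (blk t B.1))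
        (fun _ _ => Nat.zero_le _) (mem_univ (⟨B0, hB0c⟩ : Y m)))
      apply prod_pos
      intro t _
      rw [hB0]
      decide
    exact_mod_cast h6.ne'
  refine slice_bound cy_trans (fun _ => Mq q m) (fun _ => homog_Mq) f ?_ h hh hne _
    (fun _ => Mq_dim q m) R hR
  rintro g ⟨π, rfl⟩ x
  exact hf π x

end Pool.Agent.H148.SF
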