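import Pool.Agent.H148.SR.Power

/-!
# Slice rank of tensors with uniform marginals on a subspace

`f` is a tensor with `k` indices in a finite set `A`, regarded as a multilinear form on `A → ℂ`, and
`M` is a subspace of `A → ℂ` with reproducing kernel `P`. If `f` is not zero on `M × ... × M` and
the marginals of the restriction of `f` to `M` are multiples of the scalar product, then the slice
rank of `f` is at least the dimension of `M` (`le_of_marginals`).
-/

set_option autoImplicit false

namespace Pool.Agent.H148.SF

open Finset Pool.Agent.H148.SR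
open scoped ComplexConjugate

universe v

variable {A : Type v} [Fintype A] {k : ℕ}

/-- `P` is the reproducing kernel of `M`. -/
structure IsKernel (M : Submodule ℂ (A → ℂ)) (P : A → A → ℂ) : Prop where
  mem : ∀ a, (fun b => P b a) ∈ M
  rep : ∀ v ∈ M, ∀ b, v b = ∑ a, P b a * v a
  symm : ∀ a b, conj (P a b) = P b a

theorem IsKernel.unique {M : Submodule ℂ (A → ℂ)} {P Q : A → A → ℂ} (hP : IsKernel M P)
    (hQ : IsKernel M Q) : P = Q := by
  funext x y
  have h1 : Q x y = ∑ a, P x a * Q a y := hP.rep _ (hQ.mem y) x
  have h2 : P y x = ∑ a, Q y a * P a x := hQ.rep _ (hP.mem x) y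
  have h3 : P x y = ∑ a, P x a * Q a y := by
    rw [← hP.symm y x, h2, map_sum]
    refine sum_congr rfl fun a _ => ?_
    rw [map_mul, hQ.symm, hP.symm, mul_comm]
  rw [h1, h3]

theorem adapted {E : Type*} [NormedAddCommGroup E] [InnerProductSpace ℂ E]
    [FiniteDimensional ℂ E] (W : Submodule ℂ E) {D : ℕ} (hD : Module.finrank ℂ E = D) :
    ∃ B : OrthonormalBasis (Fin D) ℂ E,
      ∀ s : Fin D, (s : ℕ) < Module.finrank ℂ W → B s ∈ W := by
  classical
  let b0 := stdOrthonormalBasis ℂ W
  let vv : Fin D → E := fun i =>
    if h : (i : ℕ) < Module.finrank ℂ W then (b0 ⟨i, h⟩ : E) else 0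
  let S : Set (Fin D) := {i | (i : ℕ) < Module.finrank ℂ W}
  have hv : Orthonormal ℂ (S.domRestrict vv) := by
    have h5 : S.domRestrict vv = fun i : S => ((b0 ⟨i.1, i.2⟩ : W) : E) := by
      funext i
      have : (i.1 : ℕ) < Module.finrank ℂ W := i.2
      simp [vv, Set.domRestrict, this]
    rw [h5]
    have h6 : Orthonormal ℂ (fun i => ((b0 i : W) : E)) := by
      have := b0.orthonormal
      exact this.comp_linearIsometry W.subtypeₗᵢ
    refine h6.comp (fun i : S => (⟨i.1, i.2⟩ : Fin (Module.finrank ℂ W))) ?_
    intro i j hij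
    have := congrArg Fin.val hij
    exact Subtype.ext (Fin.ext this)
  obtain ⟨B, hB⟩ := hv.exists_orthonormalBasis_extension_of_card_eq
    (by rw [hD, Fintype.card_fin])
  refine ⟨B, fun s hs => ?_⟩
  have := hB s hs
  simp only [this, vv, hs, dif_pos]
  exact (b0 ⟨s, hs⟩).2

theorem exists_onb (M V : Submodule ℂ (A → ℂ)) :
    ∃ (b : Fin (Module.finrank ℂ M) → A → ℂ) (good : Finset (Fin (Module.finrank ℂ M))),
      (∀ s, b s ∈ M) ∧ (∀ s ∈ good, b s ∈ V) ∧
      Module.finrank ℂ M + Module.finrank ℂ V ≤ good.card + Fintype.card A ∧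
      (∀ s, ∑ a, b s a * conj (b s a) = 1) ∧
      IsKernel M (fun x y => ∑ s, b s x * conj (b s y)) ∧
      (∀ v ∈ M, ∃ c : Fin (Module.finrank ℂ M) → ℂ, v = ∑ s, c s • b s) := by
  classical
  let e : EuclideanSpace ℂ A ≃ₗ[ℂ] (A → ℂ) := WithLp.linearEquiv 2 ℂ (A → ℂ)
  let ME : Submodule ℂ (EuclideanSpace ℂ A) := M.comap e.toLinearMap
  have hME : Module.finrank ℂ ME = Module.finrank ℂ M := by
    have : ME = M.map (e.symm : (A → ℂ) →ₗ[ℂ] EuclideanSpace ℂ A) := by
      ext x
      simp [ME, Submodule.mem_map_equiv]
    rw [this]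
    exact LinearEquiv.finrank_map_eq e.symm M
  let W : Submodule ℂ ME := V.comap (e.toLinearMap ∘ₗ ME.subtype)
  have hW : Module.finrank ℂ M + Module.finrank ℂ V ≤ Module.finrank ℂ W + Fintype.card A := by
    have h1 := Submodule.finrank_sup_add_finrank_inf_eq M V
    have h2 : Module.finrank ℂ (M ⊔ V : Submodule ℂ (A → ℂ)) ≤ Fintype.card A := by
      have := Submodule.finrank_le (M ⊔ V)
      rwa [Module.finrank_fintype_fun_eq_card] at this
    have h3 : Module.finrank ℂ (M ⊓ V : Submodule ℂ (A → ℂ)) ≤ Module.finrank ℂ W := by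
      let g : (M ⊓ V : Submodule ℂ (A → ℂ)) →ₗ[ℂ] W :=
        { toFun := fun v => ⟨⟨e.symm v.1, by
              change e (e.symm v.1) ∈ M
              rw [LinearEquiv.apply_symm_apply]
              exact v.2.1⟩, by
              change e (e.symm v.1) ∈ V
              rw [LinearEquiv.apply_symm_apply]
              exact v.2.2⟩
          map_add' := by
            intro x y
            ext1
            ext1
            simp
          map_smul' := by
            intro c x
            ext1
            ext1
            simp }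
      apply LinearMap.finrank_le_finrank_of_injective (f := g)
      intro x y hxy
      have h4 : e.symm x.1 = e.symm y.1 := congrArg (fun w => ((w : W) : ME).1) hxy
      exact Subtype.ext (e.symm.injective h4)
    omega
  have hWM : Module.finrank ℂ W ≤ Module.finrank ℂ M := by
    rw [← hME]
    exact Submodule.finrank_le W
  obtain ⟨B, hB⟩ := adapted (E := ME) W hME
  refine ⟨fun s => e (B s).1, univ.filter (fun i => (i : ℕ) < Module.finrank ℂ W), ?_, ?_, ?_, ?_,
    ?_, ?_⟩
  · intro s
    exact (B s).2
  · intro s hs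
    have hs' : (s : ℕ) < Module.finrank ℂ W := (mem_filter.mp hs).2
    exact hB s hs'
  · refine hW.trans ?_
    have : (univ.filter (fun i : Fin (Module.finrank ℂ M) => (i : ℕ) < Module.finrank ℂ W)).card =
        Module.finrank ℂ W := by
      rw [Fin.card_filter_val_lt]
      omega
    rw [this]
  · intro s
    have h2 : inner ℂ (B s) (B s) = (1 : ℂ) := by
      have := (orthonormal_iff_ite.mp B.orthonormal) s s
      rwa [if_pos rfl] at this
    have h3 : inner ℂ (B s) (B s) = ∑ a, e (B s).1 a * conj (e (B s).1 a) := by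
      rw [Submodule.coe_inner, PiLp.inner_apply]
      rfl
    rw [← h3, h2]
  · have hexp : ∀ v ∈ M, ∀ y, v y = ∑ s, (∑ a, conj (e (B s).1 a) * v a) * e (B s).1 y := by
      intro v hv y
      have hvm : e.symm v ∈ ME := by
        change e (e.symm v) ∈ M
        rwa [LinearEquiv.apply_symm_apply]
      have h1 := B.sum_repr' ⟨e.symm v, hvm⟩
      have h2 := congrArg (fun w : ME => e w.1 y) h1
      have h3 : e (e.symm v) y = v y := by rw [LinearEquiv.apply_symm_apply]
      change e ((∑ i, inner ℂ (B i) (⟨e.symm v, hvm⟩ : ME) • B i : ME) : ME).1 y =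
        e (e.symm v) y at h2
      rw [h3] at h2
      rw [← h2]
      rw [AddSubmonoidClass.coe_finsetSum, map_sum, Finset.sum_apply]
      refine sum_congr rfl fun s _ => ?_
      rw [Submodule.coe_smul, map_smul, Pi.smul_apply, smul_eq_mul]
      congr 1
      rw [Submodule.coe_inner, PiLp.inner_apply]
      refine sum_congr rfl fun a _ => ?_
      exact mul_comm (v a) (conj (e (B s).1 a))
    constructor
    · intro a
      have : (fun y => ∑ s, e (B s).1 y * conj (e (B s).1 a)) =
          ∑ s, conj (e (B s).1 a) • e (B s).1 := by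
        funext y
        rw [Finset.sum_apply]
        refine sum_congr rfl fun s _ => ?_
        rw [Pi.smul_apply, smul_eq_mul, mul_comm]
      rw [this]
      exact Submodule.sum_mem _ fun s _ => Submodule.smul_mem _ _ (B s).2
    · intro v hv y
      rw [hexp v hv y]
      simp_rw [sum_mul]
      rw [sum_comm]
      refine sum_congr rfl fun a _ => sum_congr rfl fun s _ => ?_
      ring
    · intro x y
      rw [map_sum]
      refine sum_congr rfl fun s _ => ?_
      rw [map_mul, Complex.conj_conj, mul_comm]
  · intro v hv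
    have hvm : e.symm v ∈ ME := by
      change e (e.symm v) ∈ M
      rwa [LinearEquiv.apply_symm_apply]
    have h1 := B.sum_repr' ⟨e.symm v, hvm⟩
    refine ⟨fun i => inner ℂ (B i) (⟨e.symm v, hvm⟩ : ME), ?_⟩
    have h2 := congrArg (fun w : ME => e w.1) h1
    change e ((∑ i, inner ℂ (B i) (⟨e.symm v, hvm⟩ : ME) • B i : ME) : ME).1 =
        e (e.symm v) at h2
    rw [LinearEquiv.apply_symm_apply] at h2
    refine h2.symm.trans ?_
    rw [AddSubmonoidClass.coe_finsetSum, map_sum]
    refine sum_congr rfl fun s _ => ?_
    rw [Submodule.coe_smul, map_smul]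

/-- the multilinear form defined by `f` -/
noncomputable def form (f : (Fin k → A) → ℂ) (h : Fin k → A → ℂ) : ℂ :=
  ∑ x, f x * ∏ i, h i (x i)

theorem form_expand (f : (Fin k → A) → ℂ) {D : ℕ} (b : Fin k → Fin D → A → ℂ)
    (c : Fin k → Fin D → ℂ) :
    form f (fun i => ∑ s, c i s • b i s) =
      ∑ s : Fin k → Fin D, (∏ i, c i (s i)) * form f (fun i => b i (s i)) := by
  classical
  unfold form
  have h1 : ∀ x : Fin k → A, ∏ i, (∑ s, c i s • b i s) (x i) =
      ∑ s : Fin k → Fin D, ∏ i, (c i (s i) * b i (s i) (x i)) := by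
    intro x
    have : ∀ i, (∑ s, c i s • b i s) (x i) = ∑ s ∈ (univ : Finset (Fin D)), c i s * b i s (x i) := by
      intro i
      rw [Finset.sum_apply]
      rfl
    rw [prod_congr rfl fun i _ => this i, prod_univ_sum, Fintype.piFinset_univ]
  simp_rw [h1, mul_sum]
  rw [sum_comm]
  refine sum_congr rfl fun s _ => sum_congr rfl fun x _ => ?_
  rw [prod_mul_distrib]
  ring

/-- the sum of the squares of the coefficients with one index fixed -/
theorem marginal (f : (Fin k → A) → ℂ) {D : ℕ} (b : Fin k → Fin D → A → ℂ) (P : A → A → ℂ)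
    (hP : ∀ i, (fun x y => ∑ s, b i s x * conj (b i s y)) = P) (i : Fin k) (a : Fin D) :
    ∑ s ∈ (univ : Finset (Fin k → Fin D)).filter (fun s => s i = a),
      (form f (fun j => b j (s j)) * conj (form f (fun j => b j (s j)))) =
    ∑ x, ∑ y, f x * conj (f y) *
      ∏ j, (if j = i then b i a (x j) * conj (b i a (y j)) else P (x j) (y j)) := by
  classical
  have h1 : ∀ s : Fin k → Fin D, form f (fun j => b j (s j)) * conj (form f (fun j => b j (s j))) =
      ∑ x, ∑ y, f x * conj (f y) * ∏ j, (b j (s j) (x j) * conj (b j (s j) (y j))) := by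
    intro s
    unfold form
    rw [map_sum, sum_mul_sum]
    refine sum_congr rfl fun x _ => sum_congr rfl fun y _ => ?_
    rw [prod_mul_distrib, map_mul, map_prod]
    ring
  rw [sum_filter]
  have h2 : ∀ x y : Fin k → A,
      ∏ j, (if j = i then b i a (x j) * conj (b i a (y j)) else P (x j) (y j)) =
      ∑ s : Fin k → Fin D, if s i = a then ∏ j, (b j (s j) (x j) * conj (b j (s j) (y j))) else 0 := by
    intro x y
    have h3 : ∀ j, (if j = i then b i a (x j) * conj (b i a (y j)) else P (x j) (y j)) =
        ∑ t ∈ (univ : Finset (Fin D)), (if j = i → t = a then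
          b j t (x j) * conj (b j t (y j)) else 0) := by
      intro j
      by_cases hj : j = i
      · subst hj
        simp
      · simp only [hj, if_false, false_imp_iff, if_true]
        rw [← hP j]
    rw [prod_congr rfl fun j _ => h3 j, prod_univ_sum, Fintype.piFinset_univ]
    refine sum_congr rfl fun s _ => ?_
    by_cases hs : s i = a
    · rw [if_pos hs]
      refine prod_congr rfl fun j _ => ?_
      rw [if_pos]
      rintro rfl
      exact hs
    · rw [if_neg hs]
      apply prod_eq_zero (mem_univ i)
      rw [if_neg]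
      simp [hs]
  simp_rw [h2, mul_sum]
  rw [sum_congr rfl fun x _ => sum_comm, sum_comm]
  refine sum_congr rfl fun s _ => ?_
  by_cases hs : s i = a
  · simp only [hs, if_true]
    rw [h1]
  · simp only [hs, if_false, mul_zero, sum_const_zero]

theorem le_of_marginals (M : Submodule ℂ (A → ℂ)) (P : A → A → ℂ) (hP : IsKernel M P)
    (f : (Fin k → A) → ℂ) (h : Fin k → A → ℂ) (hM : ∀ i, h i ∈ M) (hne : form f h ≠ 0)
    (c : Fin k → ℂ)
    (hc : ∀ i, ∀ v ∈ M, ∑ x, ∑ y, f x * conj (f y) *
      ∏ j, (if j = i then v (x j) * conj (v (y j)) else P (x j) (y j)) =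
        c i * ∑ a, v a * conj (v a))
    (R : ℕ) (hR : SliceRankLE f R) : Module.finrank ℂ M ≤ R := by
  classical
  obtain ⟨V, r, hr, hV, h0⟩ := subspaces_of_slices f R hR
  obtain ⟨D, hD⟩ : ∃ D, Module.finrank ℂ M = D := ⟨_, rfl⟩
  have hex : ∀ i, ∃ (b : Fin D → A → ℂ) (good : Finset (Fin D)),
      (∀ s, b s ∈ M) ∧ (∀ s ∈ good, b s ∈ V i) ∧
      D + Module.finrank ℂ (V i) ≤ good.card + Fintype.card A ∧
      (∀ s, ∑ a, b s a * conj (b s a) = 1) ∧
      IsKernel M (fun x y => ∑ s, b s x * conj (b s y)) ∧
      (∀ v ∈ M, ∃ c : Fin D → ℂ, v = ∑ s, c s • b s) := by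
    intro i
    subst hD
    exact exists_onb M (V i)
  rw [hD]
  choose b good hbM hgood hcard hnorm hker hspan using hex
  let q : (Fin k → Fin D) → ℝ := fun s => Complex.normSq (form f (fun j => b j (s j)))
  have hq : ∀ s, (q s : ℂ) =
      form f (fun j => b j (s j)) * conj (form f (fun j => b j (s j))) := by
    intro s
    rw [Complex.mul_conj]
  have hm : ∀ i a, ∑ s ∈ (univ : Finset (Fin k → Fin D)).filter (fun s => s i = a), q s =
      (c i).re := by
    intro i a
    have h1 := marginal f b P (fun i => (hker i).unique hP) i a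
    rw [hc i _ (hbM i a), hnorm i a, mul_one] at h1
    rw [← h1, ← Complex.ofReal_re (∑ s ∈ _, q s)]
    congr 1
    push_cast
    exact sum_congr rfl fun s _ => hq s
  have hq0 : ∀ s, 0 ≤ q s := fun s => Complex.normSq_nonneg _
  -- total
  have htot : ∀ i, ∑ s, q s = D * (c i).re := by
    intro i
    rw [← sum_fiberwise (s := univ) (g := fun s : Fin k → Fin D => s i)]
    rw [sum_congr rfl fun a _ => hm i a]
    simp
  have hpos : 0 < ∑ s, q s := by
    rcases (sum_nonneg fun s (_ : s ∈ (univ : Finset (Fin k → Fin D))) => hq0 s).lt_or_eq with h1 | h1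
    · exact h1
    · exfalso
      apply hne
      have h2 := (sum_eq_zero_iff_of_nonneg (fun s _ => hq0 s)).mp h1.symm
      choose cf hcf using fun i => hspan i (h i) (hM i)
      have h3 : h = fun i => ∑ s, cf i s • b i s := funext hcf
      rw [h3, form_expand]
      refine sum_eq_zero fun s _ => ?_
      have h4 : form f (fun j => b j (s j)) = 0 := Complex.normSq_eq_zero.mp (h2 s (mem_univ s))
      rw [h4, mul_zero]
  -- union bound
  have hun : ∑ s, q s ≤ ∑ i, ∑ a ∈ (good i)ᶜ, (c i).re := by
    calc ∑ s, q s ≤ ∑ s, ∑ i, (if s i ∉ good i then q s else 0) := by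
          refine sum_le_sum fun s _ => ?_
          by_cases hs : ∀ i, s i ∈ good i
          · have : q s = 0 := by
              have h5 : form f (fun j => b j (s j)) = 0 :=
                h0 (fun j => b j (s j)) fun i => hgood i _ (hs i)
              change Complex.normSq _ = 0
              rw [h5, map_zero]
            rw [this]
            exact sum_nonneg fun i _ => by split_ifs <;> exact le_rfl
          · push Not at hs
            obtain ⟨i, hi⟩ := hs
            refine le_trans ?_ (single_le_sum (f := fun i => if s i ∉ good i then q s else 0)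
              (fun j _ => ?_) (mem_univ i))
            · simp [hi]
            · split_ifs <;> first | exact le_rfl | exact hq0 s
      _ = ∑ i, ∑ s, (if s i ∉ good i then q s else 0) := sum_comm
      _ = ∑ i, ∑ a ∈ (good i)ᶜ, (c i).re := by
          refine sum_congr rfl fun i _ => ?_
          rw [← sum_filter]
          rw [← sum_fiberwise_of_maps_to (t := (good i)ᶜ) (g := fun s : Fin k → Fin D => s i)]
          · refine sum_congr rfl fun a ha => ?_
            rw [← hm i a, filter_filter]
            refine sum_congr ?_ fun _ _ => rfl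
            ext s
            simp only [mem_filter, mem_univ, true_and]
            constructor
            · exact fun h => h.2
            · intro h
              refine ⟨?_, h⟩
              rw [h]
              exact mem_compl.mp ha
          · intro s hs
            exact mem_compl.mpr (mem_filter.mp hs).2
  have hfin : (D : ℝ) * ∑ s, q s ≤ R * ∑ s, q s := by
    calc (D : ℝ) * ∑ s, q s ≤ D * ∑ i, ∑ a ∈ (good i)ᶜ, (c i).re := by
          exact mul_le_mul_of_nonneg_left hun (Nat.cast_nonneg _)
      _ = ∑ i, ((good i)ᶜ.card : ℝ) * ∑ s, q s := by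
          rw [mul_sum]
          refine sum_congr rfl fun i _ => ?_
          rw [sum_const, nsmul_eq_mul, htot i]
          ring
      _ ≤ ∑ i, (r i : ℝ) * ∑ s, q s := by
          refine sum_le_sum fun i _ => ?_
          refine mul_le_mul_of_nonneg_right ?_ hpos.le
          have h6 := hcard i
          have h7 := hV i
          have h8 : (good i)ᶜ.card + (good i).card = D := by
            rw [card_compl, Fintype.card_fin]
            have := card_le_univ (good i)
            rw [Fintype.card_fin] at this
            omega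
          have : (good i)ᶜ.card ≤ r i := by omega
          exact_mod_cast this
      _ = R * ∑ s, q s := by
          rw [← sum_mul, ← hr]
          push_cast
          rfl
  have := le_of_mul_le_mul_right hfin hpos
  exact_mod_cast this

end Pool.Agent.H148.SF
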