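import Pool.Agent.H148.SF.Inv

/-!
# Invariant tensors on `[D]^n` supported on sunflowers
-/

set_option autoImplicit false

namespace Pool.Agent.H148.SF

open Finset Pool.Agent.H148.SR

variable {n D : ℕ}

/-- functions of the coordinates in `I`, with sum zero in each of these coordinates -/
def SubI (n D : ℕ) (I : Finset (Fin n)) : Submodule ℂ ((Fin n → Fin D) → ℂ) where
  carrier := {h | (∀ t, t ∉ I → ∀ x c, h (Function.update x t c) = h x) ∧
    (∀ t, t ∈ I → ∀ x, ∑ c, h (Function.update x t c) = 0)}
  zero_mem' := by simp
  add_mem' := by
    rintro g h ⟨hg1, hg2⟩ ⟨hh1, hh2⟩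
    refine ⟨fun t ht x c => ?_, fun t ht x => ?_⟩
    · rw [Pi.add_apply, Pi.add_apply, hg1 t ht, hh1 t ht]
    · simp only [Pi.add_apply]
      rw [sum_add_distrib, hg2 t ht, hh2 t ht, add_zero]
  smul_mem' := by
    rintro c g ⟨hg1, hg2⟩
    refine ⟨fun t ht x c => ?_, fun t ht x => ?_⟩
    · rw [Pi.smul_apply, Pi.smul_apply, hg1 t ht]
    · simp only [Pi.smul_apply]
      rw [← smul_sum, hg2 t ht, smul_zero]

/-- coordinatewise permutations -/
def cw (π : Fin n → Equiv.Perm (Fin D)) : Equiv.Perm (Fin n → Fin D) := Equiv.piCongrRight π

theorem cw_apply (π : Fin n → Equiv.Perm (Fin D)) (x : Fin n → Fin D) (t : Fin n) :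
    cw π x t = π t (x t) := rfl

theorem cw_update (π : Fin n → Equiv.Perm (Fin D)) (x : Fin n → Fin D) (t : Fin n) (c : Fin D) :
    cw π (Function.update x t c) = Function.update (cw π x) t (π t c) := by
  funext s
  rw [cw_apply]
  by_cases hs : s = t
  · subst hs
    simp
  · rw [Function.update_of_ne hs, Function.update_of_ne hs, cw_apply]

def CW (n D : ℕ) : Set (Equiv.Perm (Fin n → Fin D)) := Set.range cw

theorem sub_cw (I : Finset (Fin n)) (π : Fin n → Equiv.Perm (Fin D))
    {v : (Fin n → Fin D) → ℂ} (hv : v ∈ SubI n D I) : (fun a => v (cw π a)) ∈ SubI n D I := by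
  obtain ⟨h1, h2⟩ := hv
  refine ⟨fun t ht x c => ?_, fun t ht x => ?_⟩
  · change v (cw π (Function.update x t c)) = v (cw π x)
    rw [cw_update, h1 t ht]
  · change ∑ c, v (cw π (Function.update x t c)) = 0
    rw [sum_congr rfl fun c _ => by rw [cw_update],
      Equiv.sum_comp (π t) (fun c => v (Function.update (cw π x) t c))]
    exact h2 t ht (cw π x)

theorem cw_trans (a b : Fin n → Fin D) : ∃ g ∈ CW n D, g a = b := by
  refine ⟨_, ⟨fun t => Equiv.swap (a t) (b t), rfl⟩, ?_⟩
  funext t
  rw [cw_apply, Equiv.swap_apply_left]

theorem homog_sub (I : Finset (Fin n)) : Homog (CW n D) (SubI n D I) := by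
  constructor
  · rintro g ⟨π, rfl⟩ v hv
    exact sub_cw I π hv
  · rintro g ⟨π, rfl⟩ v hv
    exact sub_cw I (fun t => (π t).symm) hv
  · intro a u hu hrad h0
    obtain ⟨hu1, hu2⟩ := hu
    -- `u` depends only on the set of agreements with `a`
    have hr : ∀ b b' : Fin n → Fin D, (∀ t, b t = a t ↔ b' t = a t) → u b = u b' := by
      intro b b' hbb
      have h1 := hrad (cw fun t => Equiv.swap (b' t) (b t)) ⟨_, rfl⟩ (by
        funext t
        rw [cw_apply]
        by_cases h : b t = a t
        · rw [(hbb t).mp h, h, Equiv.swap_self]
          rfl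
        · rw [Equiv.swap_apply_of_ne_of_ne]
          · exact fun h' => h ((hbb t).mpr h'.symm)
          · exact fun h' => h h'.symm) b'
      rw [← h1]
      congr 1
      funext t
      rw [cw_apply, Equiv.swap_apply_left]
    have key : ∀ d : ℕ, ∀ b : Fin n → Fin D, (univ.filter fun t => b t ≠ a t).card = d →
        u b = 0 := by
      intro d
      induction d using Nat.strong_induction_on with
      | _ d ih =>
        intro b hb
        by_cases hba : ∀ t, b t = a t
        · rw [funext hba, h0]
        · push Not at hba
          obtain ⟨t, ht⟩ := hba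
          have hlt : u (Function.update b t (a t)) = 0 := by
            refine ih _ ?_ (Function.update b t (a t)) rfl
            rw [← hb]
            apply card_lt_card
            refine ⟨fun s hs => ?_, fun hss => ?_⟩
            · have h2 := (mem_filter.mp hs).2
              refine mem_filter.mpr ⟨mem_univ _, fun h3 => ?_⟩
              by_cases hst : s = t
              · subst hst
                simp at h2
              · rw [Function.update_of_ne hst] at h2
                exact h2 h3
            · have h4 := hss (mem_filter.mpr ⟨mem_univ t, ht⟩)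
              simp at h4
          by_cases hI : t ∈ I
          · have h3 := hu2 t hI b
            rw [← add_sum_erase univ _ (mem_univ (a t)), hlt, zero_add] at h3
            have h4 : ∀ c ∈ univ.erase (a t), u (Function.update b t c) = u b := by
              intro c hc
              apply hr
              intro s
              by_cases hst : s = t
              · subst hst
                rw [Function.update_self]
                exact ⟨fun h => absurd h (ne_of_mem_erase hc), fun h => absurd h ht⟩
              · rw [Function.update_of_ne hst]
            rw [sum_congr rfl h4, sum_const, nsmul_eq_mul, mul_eq_zero] at h3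
            rcases h3 with h3 | h3
            · exfalso
              have h5 : 0 < (univ.erase (a t)).card :=
                card_pos.mpr ⟨b t, mem_erase.mpr ⟨ht, mem_univ _⟩⟩
              have : ((univ.erase (a t)).card : ℂ) ≠ 0 := by exact_mod_cast h5.ne'
              exact this h3
            · exact h3
          · rw [← hu1 t hI b (a t), hlt]
    funext b
    exact key _ b rfl

theorem sub_dim (d : ℕ) (I : Finset (Fin n)) :
    d ^ I.card ≤ Module.finrank ℂ (SubI n (d + 1) I) := by
  classical
  -- evaluation at the points `pt z`
  let pt : ({t // t ∈ I} → Fin d) → (Fin n → Fin (d + 1)) := fun z t =>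
    if h : t ∈ I then (z ⟨t, h⟩).castSucc else Fin.last d
  let ev : SubI n (d + 1) I →ₗ[ℂ] (({t // t ∈ I} → Fin d) → ℂ) :=
    { toFun := fun v z => v.1 (pt z)
      map_add' := fun _ _ => rfl
      map_smul' := fun _ _ => rfl }
  let w : Fin d → Fin (d + 1) → ℂ := fun c a =>
    (if a = c.castSucc then 1 else 0) - (if a = Fin.last d then 1 else 0)
  have hw : ∀ c, ∑ a, w c a = 0 := by
    intro c
    simp [w]
  let e : ({t // t ∈ I} → Fin d) → SubI n (d + 1) I := fun y =>
    ⟨fun x => ∏ t : {t // t ∈ I}, w (y t) (x t), by
      refine ⟨fun t ht x c => ?_, fun t ht x => ?_⟩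
      · refine prod_congr rfl fun s _ => ?_
        rw [Function.update_of_ne]
        rintro rfl
        exact ht s.2
      · have h1 : ∀ c, ∏ s : {t // t ∈ I}, w (y s) (Function.update x t c s) =
            w (y ⟨t, ht⟩) c * ∏ s ∈ univ.erase (⟨t, ht⟩ : {t // t ∈ I}), w (y s) (x s) := by
          intro c
          rw [← mul_prod_erase univ _ (mem_univ (⟨t, ht⟩ : {t // t ∈ I}))]
          rw [Function.update_self]
          congr 1
          refine prod_congr rfl fun s hs => ?_
          rw [Function.update_of_ne]
          intro h
          exact ne_of_mem_erase hs (Subtype.ext h)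
        rw [sum_congr rfl fun c _ => h1 c, ← sum_mul, hw, zero_mul]⟩
  have hev : ∀ y z, ev (e y) z = if y = z then 1 else 0 := by
    intro y z
    change ∏ t : {t // t ∈ I}, w (y t) (pt z t) = _
    have h1 : ∀ t : {t // t ∈ I}, w (y t) (pt z t) = if y t = z t then 1 else 0 := by
      intro t
      have : pt z t = (z t).castSucc := by
        simp only [pt, dif_pos t.2]
      rw [this]
      simp only [w]
      rw [if_neg (Fin.castSucc_ne_last _), sub_zero]
      by_cases h : y t = z t
      · rw [if_pos h, if_pos (by rw [h])]
      · rw [if_neg h, if_neg (fun h' => h (Fin.castSucc_injective _ h').symm)]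
    rw [prod_congr rfl fun t _ => h1 t]
    by_cases h : y = z
    · rw [if_pos h, h]
      simp
    · rw [if_neg h]
      obtain ⟨t, ht⟩ := Function.ne_iff.mp h
      exact prod_eq_zero (mem_univ t) (if_neg ht)
  have hsurj : Function.Surjective ev := by
    intro v
    refine ⟨∑ y, v y • e y, ?_⟩
    funext z
    rw [map_sum, Finset.sum_apply]
    rw [sum_eq_single z]
    · rw [map_smul, Pi.smul_apply, hev, if_pos rfl, smul_eq_mul, mul_one]
    · intro y _ hy
      rw [map_smul, Pi.smul_apply, hev, if_neg hy, smul_zero]
    · intro h
      exact absurd (mem_univ _) h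
  have h1 := LinearMap.finrank_le_finrank_of_surjective hsurj
  rw [Module.finrank_fintype_fun_eq_card] at h1
  simpa using h1

/-- functions with sum zero in the coordinates in `I` are sums of functions in the spaces `SubI J`
with `J ⊇ I` -/
theorem mem_sup (hD : 0 < D) : ∀ (N : ℕ) (I K : Finset (Fin n)), (univ \ (I ∪ K)).card = N →
    ∀ h : (Fin n → Fin D) → ℂ, (∀ t, t ∈ I → ∀ x, ∑ c, h (Function.update x t c) = 0) →
    (∀ t, t ∈ K → ∀ x c, h (Function.update x t c) = h x) →
    h ∈ ⨆ J : {J : Finset (Fin n) // I ⊆ J}, SubI n D J.1 := by
  intro N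
  induction N with
  | zero =>
    intro I K hN h h1 h2
    have h3 : h ∈ SubI n D I := by
      refine ⟨fun t ht => h2 t ?_, h1⟩
      have : t ∉ univ \ (I ∪ K) := by
        rw [card_eq_zero.mp hN]
        exact notMem_empty t
      rw [mem_sdiff, not_and, not_not] at this
      rcases mem_union.mp (this (mem_univ t)) with h | h
      · exact absurd h ht
      · exact h
    exact Submodule.mem_iSup_of_mem (⟨I, Subset.refl _⟩ : {J : Finset (Fin n) // I ⊆ J}) h3
  | succ N ih =>
    intro I K hN h h1 h2
    have hne : (univ \ (I ∪ K)).Nonempty := by
      rw [← card_pos]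
      omega
    obtain ⟨t, ht⟩ := hne
    have htI : t ∉ I := fun h => (mem_sdiff.mp ht).2 (mem_union_left _ h)
    have htK : t ∉ K := fun h => (mem_sdiff.mp ht).2 (mem_union_right _ h)
    have hc : (univ \ ((insert t I) ∪ K)).card = N := by
      have : univ \ ((insert t I) ∪ K) = (univ \ (I ∪ K)).erase t := by
        ext s
        simp only [mem_sdiff, mem_univ, true_and, mem_union, mem_insert, mem_erase]
        tauto
      rw [this, card_erase_of_mem ht]
      omega
    have hc' : (univ \ (I ∪ (insert t K))).card = N := by
      have : univ \ (I ∪ (insert t K)) = (univ \ (I ∪ K)).erase t := by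
        ext s
        simp only [mem_sdiff, mem_univ, true_and, mem_union, mem_insert, mem_erase]
        tauto
      rw [this, card_erase_of_mem ht]
      omega
    let E : (Fin n → Fin D) → ℂ := fun x => (D : ℂ)⁻¹ * ∑ c, h (Function.update x t c)
    have hDC : (D : ℂ) ≠ 0 := by exact_mod_cast hD.ne'
    have hE1 : ∀ s, s ∈ I → ∀ x, ∑ c, E (Function.update x s c) = 0 := by
      intro s hs x
      have hst : s ≠ t := fun h => htI (h ▸ hs)
      simp only [E]
      rw [← mul_sum, sum_comm]
      have : ∀ c, ∑ c', h (Function.update (Function.update x s c') t c) = 0 := by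
        intro c
        rw [← h1 s hs (Function.update x t c)]
        exact sum_congr rfl fun c' _ => by rw [Function.update_comm hst]
      rw [sum_congr rfl fun c _ => this c, sum_const_zero, mul_zero]
    have hE2 : ∀ s, s ∈ insert t K → ∀ x c, E (Function.update x s c) = E x := by
      intro s hs x c
      simp only [E]
      congr 1
      refine sum_congr rfl fun c' _ => ?_
      rcases mem_insert.mp hs with rfl | hs
      · rw [Function.update_idem]
      · have hst : s ≠ t := fun h => htK (h ▸ hs)
        rw [Function.update_comm hst, h2 s hs]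
    have hE := ih I (insert t K) hc' E hE1 hE2
    have hF := ih (insert t I) K hc (fun x => h x - E x)
      (by
        intro s hs x
        rcases mem_insert.mp hs with rfl | hs
        · rw [sum_sub_distrib]
          simp only [E, Function.update_idem]
          rw [sum_const, card_univ, Fintype.card_fin, nsmul_eq_mul, ← mul_assoc,
            mul_inv_cancel₀ hDC, one_mul, sub_self]
        · rw [sum_sub_distrib, h1 s hs, hE1 s hs, sub_zero])
      (by
        intro s hs x c
        rw [h2 s hs, hE2 s (mem_insert_of_mem hs)])
    have hle : (⨆ J : {J : Finset (Fin n) // insert t I ⊆ J}, SubI n D J.1) ≤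
        ⨆ J : {J : Finset (Fin n) // I ⊆ J}, SubI n D J.1 := by
      apply iSup_le
      intro J
      exact le_iSup (fun J : {J : Finset (Fin n) // I ⊆ J} => SubI n D J.1)
        ⟨J.1, (subset_insert t I).trans J.2⟩
    have hsum := Submodule.add_mem _ hE (hle hF)
    have : (E + fun x => h x - E x) = h := by
      funext x
      simp
    rwa [this] at hsum

theorem exists_sub {k : ℕ} (hD : 0 < D) (f : (Fin k → (Fin n → Fin D)) → ℂ)
    (h : Fin k → (Fin n → Fin D) → ℂ) (hne : form f h ≠ 0) (I : Fin k → Finset (Fin n))
    (hI : ∀ j, ∀ t, t ∈ I j → ∀ x, ∑ c, h j (Function.update x t c) = 0) :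
    ∃ (J : Fin k → Finset (Fin n)) (g : Fin k → (Fin n → Fin D) → ℂ), (∀ j, I j ⊆ J j) ∧
      (∀ j, g j ∈ SubI n D (J j)) ∧ form f g ≠ 0 := by
  classical
  have key : ∀ s : Finset (Fin k), ∃ (J : Fin k → Finset (Fin n))
      (g : Fin k → (Fin n → Fin D) → ℂ), (∀ j, I j ⊆ J j) ∧
      (∀ j ∈ s, g j ∈ SubI n D (J j)) ∧ (∀ j, j ∉ s → g j = h j) ∧ form f g ≠ 0 := by
    intro s
    induction s using Finset.induction_on with
    | empty => exact ⟨I, h, fun _ => Subset.refl _, by simp, fun _ _ => rfl, hne⟩
    | insert i s hi ih =>
      obtain ⟨J, g, hJ, hg1, hg2, hg3⟩ := ih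
      have hmem := mem_sup hD (univ \ (I i ∪ ∅)).card (I i) ∅ rfl (h i) (hI i) (by simp)
      -- the linear functional
      let L : ((Fin n → Fin D) → ℂ) →ₗ[ℂ] ℂ :=
        { toFun := fun v => form f (Function.update g i v)
          map_add' := by
            intro u v
            unfold form
            rw [← sum_add_distrib]
            refine sum_congr rfl fun x _ => ?_
            rw [← mul_add]
            congr 1
            rw [← mul_prod_erase univ _ (mem_univ i), ← mul_prod_erase univ _ (mem_univ i),
              ← mul_prod_erase univ _ (mem_univ i)]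
            simp only [Function.update_self, Pi.add_apply]
            rw [add_mul]
            congr 1 <;> congr 1 <;> refine prod_congr rfl fun j hj => ?_ <;>
              rw [Function.update_of_ne (ne_of_mem_erase hj),
                Function.update_of_ne (ne_of_mem_erase hj)]
          map_smul' := by
            intro c v
            unfold form
            rw [RingHom.id_apply, smul_eq_mul, mul_sum]
            refine sum_congr rfl fun x _ => ?_
            rw [← mul_prod_erase univ _ (mem_univ i), ← mul_prod_erase univ _ (mem_univ i)]
            simp only [Function.update_self, Pi.smul_apply, smul_eq_mul]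
            have : ∏ j ∈ univ.erase i, Function.update g i (c • v) j (x j) =
                ∏ j ∈ univ.erase i, Function.update g i v j (x j) := by
              refine prod_congr rfl fun j hj => ?_
              rw [Function.update_of_ne (ne_of_mem_erase hj),
                Function.update_of_ne (ne_of_mem_erase hj)]
            rw [this]
            ring }
      by_contra hcon
      have hL : ∀ J' : {J : Finset (Fin n) // I i ⊆ J}, SubI n D J'.1 ≤ LinearMap.ker L := by
        intro J' v hv
        rw [LinearMap.mem_ker]
        by_contra hLv
        apply hcon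
        refine ⟨Function.update J i J'.1, Function.update g i v, ?_, ?_, ?_, hLv⟩
        · intro j
          by_cases hj : j = i
          · subst hj
            rw [Function.update_self]
            exact J'.2
          · rw [Function.update_of_ne hj]
            exact hJ j
        · intro j hj
          by_cases hji : j = i
          · subst hji
            rw [Function.update_self, Function.update_self]
            exact hv
          · rw [Function.update_of_ne hji, Function.update_of_ne hji]
            exact hg1 j ((mem_insert.mp hj).resolve_left hji)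
        · intro j hj
          rw [mem_insert, not_or] at hj
          rw [Function.update_of_ne hj.1]
          exact hg2 j hj.2
      have h5 : h i ∈ LinearMap.ker L := (iSup_le hL) hmem
      rw [LinearMap.mem_ker] at h5
      apply hg3
      have h6 : Function.update g i (h i) = g := by
        rw [← hg2 i hi]
        exact Function.update_eq_self i g
      change form f (Function.update g i (h i)) = 0 at h5
      rwa [h6] at h5
  obtain ⟨J, g, hJ, hg1, -, hg3⟩ := key univ
  exact ⟨J, g, hJ, fun j => hg1 j (mem_univ j), hg3⟩

end Pool.Agent.H148.SF
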