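import Pool.Agent.H148.SF.Dim

/-!
# The degree of functions supported on sunflowers
-/

set_option autoImplicit false

namespace Pool.Agent.H148.SF

open Finset Pool.Agent.H148.SR

variable {m : ℕ} {F : Type} [Field F]

/-- product over the blocks -/
def pH (F : Type) [Field F] (φ : Finset (Fin 4) → ℤ) (B : Finset (Fin m × Fin 4)) : F :=
  ∏ t, ((φ (blk t B) : ℤ) : F)

theorem pH_card {φ : Finset (Fin 4) → ℤ} (hφ : ∀ {S}, φ S ≠ 0 → S.card = 2)
    {B : Finset (Fin m × Fin 4)} (h : pH F φ B ≠ 0) (t : Fin m) : (blk t B).card = 2 := by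
  apply hφ
  intro h0
  apply h
  apply prod_eq_zero (mem_univ t)
  rw [h0, Int.cast_zero]

/-- subsets of the ground set are tuples of subsets of the blocks -/
def blkEquiv (m : ℕ) : Finset (Fin m × Fin 4) ≃ (Fin m → Finset (Fin 4)) where
  toFun B t := blk t B
  invFun s := univ.filter fun z => z.2 ∈ s z.1
  left_inv := by
    intro B
    ext z
    simp [mem_blk]
  right_inv := by
    intro s
    funext t
    ext c
    simp [mem_blk]

theorem sum_blk {R : Type} [CommSemiring R] (ψ : Fin m → Finset (Fin 4) → R) :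
    ∑ B : Finset (Fin m × Fin 4), ∏ t, ψ t (blk t B) = ∏ t, ∑ S, ψ t S := by
  rw [prod_univ_sum, Fintype.piFinset_univ, ← Equiv.sum_comp (blkEquiv m)]
  rfl

theorem b4_low : ∀ C : Finset (Fin 4), C.card < 2 →
    ∑ S : Finset (Fin 4), (if C ⊆ S then b4 S else 0) = 0 := by decide

theorem c4_low : ∀ C : Finset (Fin 4), C.card < 2 →
    ∑ S : Finset (Fin 4), (if C ⊆ S then c4 S else 0) = 0 := by decide

theorem q4_sum : ∑ S : Finset (Fin 4), q4 S = 2 := by decide

theorem pH_low {φ : Finset (Fin 4) → ℤ}
    (hφ : ∀ C : Finset (Fin 4), C.card < 2 → ∑ S : Finset (Fin 4), (if C ⊆ S then φ S else 0) = 0)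
    (C : Finset (Fin m × Fin 4)) (hC : C.card < 2 * m) :
    ∑ B : Finset (Fin m × Fin 4), (if C ⊆ B then pH F φ B else 0) = 0 := by
  classical
  have h1 : ∀ B : Finset (Fin m × Fin 4), (if C ⊆ B then pH F φ B else 0) =
      ∏ t, (if blk t C ⊆ blk t B then ((φ (blk t B) : ℤ) : F) else 0) := by
    intro B
    by_cases h : C ⊆ B
    · rw [if_pos h]
      unfold pH
      refine prod_congr rfl fun t _ => ?_
      rw [if_pos]
      intro c hc
      rw [mem_blk] at hc ⊢
      exact h hc
    · rw [if_neg h]
      obtain ⟨⟨t, c⟩, hz, hz'⟩ := not_subset.mp h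
      symm
      apply prod_eq_zero (mem_univ t)
      rw [if_neg]
      intro h'
      exact hz' ((mem_blk t B c).mp (h' ((mem_blk t C c).mpr hz)))
  rw [sum_congr rfl fun B _ => h1 B,
    sum_blk (fun t S => if blk t C ⊆ S then ((φ S : ℤ) : F) else 0)]
  have h2 : ∃ t, (blk t C).card < 2 := by
    by_contra h
    push Not at h
    have h3 : ∑ _t : Fin m, 2 ≤ ∑ t, (blk t C).card := sum_le_sum fun t _ => h t
    rw [card_blk] at h3
    simp at h3
    omega
  obtain ⟨t, ht⟩ := h2
  apply prod_eq_zero (mem_univ t)
  have h3 := congrArg (fun z : ℤ => (z : F)) (hφ (blk t C) ht)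
  simp only [Int.cast_sum, Int.cast_zero, Int.cast_ite] at h3
  exact h3

theorem form_value {k : ℕ} (hk : 4 ≤ k) (g : (Fin k → Finset (Fin m × Fin 4)) → F)
    (hdiag : ∀ B, B.card = 2 * m → g (fun _ => B) = 1)
    (hs : ∀ x, g x ≠ 0 → ∀ i, (univ.filter fun j => i ∈ x j).card = 0 ∨
      (univ.filter fun j => i ∈ x j).card = 1 ∨ (univ.filter fun j => i ∈ x j).card = k)
    (i0 : Fin k) :
    ∑ x, g x * ∏ j, (if j = i0 then pH F b4 (x j) else pH F c4 (x j)) = 2 ^ m := by
  classical
  have hcard : ∀ (j : Fin k) (B : Finset (Fin m × Fin 4)),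
      (if j = i0 then pH F b4 B else pH F c4 B) ≠ 0 → ∀ t, (blk t B).card = 2 := by
    intro j B hB t
    by_cases hj : j = i0
    · rw [if_pos hj] at hB
      exact pH_card b4_card hB t
    · rw [if_neg hj] at hB
      exact pH_card c4_card hB t
  have h1 : ∑ x, g x * ∏ j, (if j = i0 then pH F b4 (x j) else pH F c4 (x j)) =
      ∑ B, g (fun _ => B) * ∏ j, (if j = i0 then pH F b4 B else pH F c4 B) := by
    symm
    refine sum_of_injOn (fun B => (fun _ => B : Fin k → Finset (Fin m × Fin 4))) ?_ ?_ ?_ ?_
    · intro B _ C _ hBC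
      exact congrFun hBC i0
    · intro B _
      exact mem_coe.mpr (mem_univ _)
    · intro x _ hx
      by_contra hne
      have hg : g x ≠ 0 := left_ne_zero_of_mul hne
      have hp := fun j => prod_ne_zero_iff.mp (right_ne_zero_of_mul hne) j (mem_univ j)
      apply hx
      refine ⟨x i0, mem_coe.mpr (mem_univ _), ?_⟩
      funext j
      exact const_of_blk hk x (fun j t => hcard j _ (hp j) t) (hs x hg) i0 j
    · intro B _
      rfl
  have hprod : ∀ B : Finset (Fin m × Fin 4),
      ∏ j, (if j = i0 then pH F b4 B else pH F c4 B) = ((∏ t, q4 (blk t B) : ℕ) : F) := by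
    intro B
    rw [← mul_prod_erase univ _ (mem_univ i0), if_pos rfl]
    have e2 : ∏ x ∈ univ.erase i0, (if x = i0 then pH F b4 B else pH F c4 B) =
        pH F c4 B ^ (k - 1) := by
      rw [prod_congr rfl (g := fun _ => pH F c4 B)]
      · rw [prod_const, card_erase_of_mem (mem_univ i0), card_univ, Fintype.card_fin]
      · intro j hj
        rw [if_neg (ne_of_mem_erase hj)]
    rw [e2]
    unfold pH
    rw [← prod_pow, ← prod_mul_distrib, Nat.cast_prod]
    refine prod_congr rfl fun t _ => ?_
    rcases bc4 (blk t B) with ⟨h2 | h2, h3⟩ | ⟨h2, h3, h4⟩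
    · rw [h2, h3]; simp
    · rw [h2, h3]
      have : k - 1 ≠ 0 := by omega
      simp [this]
    · rw [h2, h3, h4]; simp
  have h2 : ∀ B : Finset (Fin m × Fin 4),
      g (fun _ => B) * ((∏ t, q4 (blk t B) : ℕ) : F) = ((∏ t, q4 (blk t B) : ℕ) : F) := by
    intro B
    by_cases hB : B.card = 2 * m
    · rw [hdiag B hB, one_mul]
    · have h3 : ∏ t, q4 (blk t B) = 0 := by
        by_contra hne
        apply hB
        apply card_of_blk
        intro t
        have h4 := prod_ne_zero_iff.mp hne t (mem_univ t)
        have h5 : blk t B = {0, 1} ∨ blk t B = {2, 3} := by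
          by_contra h6
          exact h4 (if_neg h6)
        rcases h5 with h5 | h5 <;> rw [h5] <;> rfl
      rw [h3]
      simp
  rw [h1, sum_congr rfl fun B _ => by rw [hprod B, h2 B], ← Nat.cast_sum,
    sum_blk (fun _ S => q4 S), q4_sum]
  simp

/-- the degree of a function supported on sunflowers -/
theorem degree_bound (k : ℕ) (hk : 4 ≤ k) (n l m : ℕ) (h1 : 2 * m ≤ l) (h2 : l + 2 * m ≤ n)
    (h2F : (2 : F) ≠ 0) (f : (Fin k → {A : Finset (Fin n) // A.card = l}) → F)
    (hdiag : ∀ A, f (fun _ => A) = 1)
    (hsupp : ∀ x, f x ≠ 0 → ∀ i : Fin n,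
      (univ.filter fun j => i ∈ (x j : Finset (Fin n))).card = 0 ∨
      (univ.filter fun j => i ∈ (x j : Finset (Fin n))).card = 1 ∨
      (univ.filter fun j => i ∈ (x j : Finset (Fin n))).card = k)
    (c : (Fin k → Finset (Fin n)) → F)
    (hc : ∀ x, f x = ∑ C, c C * ∏ j, (if C j ⊆ (x j : Finset (Fin n)) then 1 else 0)) :
    ∃ C, c C ≠ 0 ∧ ∀ j, 2 * m ≤ (C j).card := by
  classical
  by_contra hcon
  push Not at hcon
  have hle : Fintype.card (Fin m × Fin 4) ≤ Fintype.card (Fin n) := by
    simp only [Fintype.card_prod, Fintype.card_fin]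
    omega
  obtain ⟨ι⟩ := Function.Embedding.nonempty_of_card_le hle
  have hZ : ∃ Z : Finset (Fin n), Z ⊆ (univ.map ι)ᶜ ∧ Z.card = l - 2 * m := by
    apply exists_subset_card_eq
    rw [card_compl, card_map, card_univ]
    simp only [Fintype.card_prod, Fintype.card_fin]
    omega
  obtain ⟨Z, hZ1, hZ2⟩ := hZ
  have hZι : ∀ z ∈ Z, z ∉ Set.range ι := by
    rintro z hz ⟨w, rfl⟩
    exact (mem_compl.mp (hZ1 hz)) (mem_map_of_mem ι (mem_univ w))
  have hcardE : ∀ B : Finset (Fin m × Fin 4), B.card = 2 * m → (B.map ι ∪ Z).card = l := by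
    intro B hB
    rw [card_union_of_disjoint, card_map, hB, hZ2]
    · omega
    · rw [disjoint_left]
      intro z hz hz'
      obtain ⟨w, -, rfl⟩ := mem_map.mp hz
      exact hZι _ hz' ⟨w, rfl⟩
  let B0 : Finset (Fin m × Fin 4) := univ.filter fun z => z.2 = 0 ∨ z.2 = 1
  have hB0 : B0.card = 2 * m := card_of_blk fun t => by
    have : blk t B0 = {0, 1} := by
      ext c
      rw [mem_blk]
      simp [B0]
    rw [this]
    rfl
  let E : Finset (Fin m × Fin 4) → {A : Finset (Fin n) // A.card = l} := fun B =>
    if h : B.card = 2 * m then ⟨B.map ι ∪ Z, hcardE B h⟩ else ⟨B0.map ι ∪ Z, hcardE B0 hB0⟩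
  have hE : ∀ B, B.card = 2 * m → (E B : Finset (Fin n)) = B.map ι ∪ Z := by
    intro B hB
    simp only [E, dif_pos hB]
  let w : Finset (Fin m × Fin 4) → F := fun B => if B.card = 2 * m then 1 else 0
  let g : (Fin k → Finset (Fin m × Fin 4)) → F := fun x => (∏ j, w (x j)) * f (fun j => E (x j))
  have hw : ∀ x : Fin k → Finset (Fin m × Fin 4), ∏ j, w (x j) ≠ 0 → ∀ j, (x j).card = 2 * m := by
    intro x hx j
    have := prod_ne_zero_iff.mp hx j (mem_univ j)
    by_contra h
    exact this (if_neg h)
  let i0 : Fin k := ⟨0, by omega⟩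
  have hval := form_value hk g
    (by
      intro B hB
      change (∏ j, w B) * f (fun j => E B) = 1
      rw [hdiag, mul_one]
      simp [w, hB])
    (by
      intro x hx i
      have hx1 := hw x (left_ne_zero_of_mul hx)
      have hx2 := hsupp _ (right_ne_zero_of_mul hx) (ι i)
      have e : ∀ j, (ι i ∈ (E (x j) : Finset (Fin n))) ↔ i ∈ x j := by
        intro j
        rw [hE _ (hx1 j), mem_union, mem_map' ι]
        have : ι i ∉ Z := fun h => hZι _ h ⟨_, rfl⟩
        simp [this]
      simp only [e] at hx2
      exact hx2) i0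
  -- the sum factors over the monomials
  have hfac : ∑ x, g x * ∏ j, (if j = i0 then pH F b4 (x j) else pH F c4 (x j)) =
      ∑ C, c C * ∏ j, ∑ B : Finset (Fin m × Fin 4), (w B *
        (if C j ⊆ (E B : Finset (Fin n)) then 1 else 0) *
        (if j = i0 then pH F b4 B else pH F c4 B)) := by
    have e1 : ∀ x : Fin k → Finset (Fin m × Fin 4),
        g x * ∏ j, (if j = i0 then pH F b4 (x j) else pH F c4 (x j)) =
        ∑ C, c C * ∏ j, (w (x j) * (if C j ⊆ (E (x j) : Finset (Fin n)) then 1 else 0) *
          (if j = i0 then pH F b4 (x j) else pH F c4 (x j))) := by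
      intro x
      change (∏ j, w (x j)) * f (fun j => E (x j)) * _ = _
      rw [hc, mul_sum, sum_mul]
      refine sum_congr rfl fun C _ => ?_
      rw [prod_mul_distrib, prod_mul_distrib]
      ring
    rw [sum_congr rfl fun x _ => e1 x, sum_comm]
    refine sum_congr rfl fun C _ => ?_
    rw [← mul_sum, prod_univ_sum, Fintype.piFinset_univ]
  rw [hfac] at hval
  have hzero : ∑ C, c C * ∏ j, ∑ B : Finset (Fin m × Fin 4), (w B *
        (if C j ⊆ (E B : Finset (Fin n)) then 1 else 0) *
        (if j = i0 then pH F b4 B else pH F c4 B)) = 0 := by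
    refine sum_eq_zero fun C _ => ?_
    by_cases hcC : c C = 0
    · rw [hcC, zero_mul]
    · obtain ⟨j, hj⟩ := hcon C hcC
      have e2 : ∑ B : Finset (Fin m × Fin 4), (w B *
          (if C j ⊆ (E B : Finset (Fin n)) then 1 else 0) *
          (if j = i0 then pH F b4 B else pH F c4 B)) = 0 := by
        -- the preimage of `C j`
        let C' : Finset (Fin m × Fin 4) := univ.filter fun z => ι z ∈ C j
        have hC' : C'.card ≤ (C j).card := by
          rw [← card_map ι]
          apply card_le_card
          intro z hz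
          obtain ⟨y, hy, rfl⟩ := mem_map.mp hz
          exact (mem_filter.mp hy).2
        have hlow : ∑ B : Finset (Fin m × Fin 4),
            (if C' ⊆ B then (if j = i0 then pH F b4 B else pH F c4 B) else 0) = 0 := by
          by_cases hj0 : j = i0
          · simp only [hj0, if_true]
            exact pH_low b4_low C' (by omega)
          · simp only [hj0, if_false]
            exact pH_low c4_low C' (by omega)
        have hsub : ∀ B : Finset (Fin m × Fin 4), C j ⊆ B.map ι ∪ Z ↔
            ((∀ z ∈ C j, z ∈ Set.range ι ∨ z ∈ Z) ∧ C' ⊆ B) := by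
          intro B
          constructor
          · intro h
            refine ⟨fun z hz => ?_, fun z hz => ?_⟩
            · rcases mem_union.mp (h hz) with h3 | h3
              · obtain ⟨y, -, rfl⟩ := mem_map.mp h3
                exact Or.inl ⟨y, rfl⟩
              · exact Or.inr h3
            · have h3 := h (mem_filter.mp hz).2
              rw [mem_union, mem_map' ι] at h3
              rcases h3 with h3 | h3
              · exact h3
              · exact absurd ⟨z, rfl⟩ (hZι _ h3)
          · rintro ⟨h3, h4⟩ z hz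
            rw [mem_union]
            rcases h3 z hz with ⟨y, rfl⟩ | h5
            · left
              rw [mem_map' ι]
              exact h4 (mem_filter.mpr ⟨mem_univ _, hz⟩)
            · exact Or.inr h5
        have hterm : ∀ B : Finset (Fin m × Fin 4), (w B *
            (if C j ⊆ (E B : Finset (Fin n)) then 1 else 0) *
            (if j = i0 then pH F b4 B else pH F c4 B)) =
            (if ∀ z ∈ C j, z ∈ Set.range ι ∨ z ∈ Z then 1 else 0) *
            (if C' ⊆ B then (if j = i0 then pH F b4 B else pH F c4 B) else 0) := by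
          intro B
          by_cases hB : B.card = 2 * m
          · rw [hE B hB]
            simp only [w, hB, if_true, one_mul, hsub B]
            by_cases h3 : ∀ z ∈ C j, z ∈ Set.range ι ∨ z ∈ Z
            · by_cases h4 : C' ⊆ B
              · rw [if_pos ⟨h3, h4⟩, if_pos h3, if_pos h4]
              · rw [if_neg (fun h => h4 h.2), if_pos h3, if_neg h4, zero_mul, mul_zero]
            · rw [if_neg (fun h => h3 h.1), if_neg h3, zero_mul, zero_mul]
          · have h5 : (if j = i0 then pH F b4 B else pH F c4 B) = 0 := by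
              by_contra hne
              apply hB
              apply card_of_blk
              intro t
              by_cases hj0 : j = i0
              · rw [if_pos hj0] at hne
                exact pH_card b4_card hne t
              · rw [if_neg hj0] at hne
                exact pH_card c4_card hne t
            rw [h5]
            simp
        rw [sum_congr rfl fun B _ => hterm B, ← mul_sum, hlow, mul_zero]
      rw [prod_eq_zero (mem_univ j) e2, mul_zero]
  rw [hzero] at hval
  exact pow_ne_zero m h2F hval.symm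

end Pool.Agent.H148.SF
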