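import Pool.Agent.H148.SF.Block

/-!
# The dimension of the harmonic functions, and the bound for arbitrary layers
-/

set_option autoImplicit false

namespace Pool.Agent.H148.SF

open Finset Pool.Agent.H148.SR

section dim

variable {Ω : Type} [Fintype Ω] [DecidableEq Ω]

/-- extension by zero -/
noncomputable def ext0 {l : ℕ} (u : {B : Finset Ω // B.card = l} → ℂ) (B : Finset Ω) : ℂ :=
  if h : B.card = l then u ⟨B, h⟩ else 0

theorem harm_dim (l : ℕ) : (Fintype.card Ω).choose (l + 1) ≤
    Module.finrank ℂ (Harm Ω (l + 1)) + (Fintype.card Ω).choose l := by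
  let L : ({B : Finset Ω // B.card = l + 1} → ℂ) →ₗ[ℂ] ({C : Finset Ω // C.card = l} → ℂ) :=
    { toFun := fun u C => ∑ b ∈ C.1ᶜ, ext0 u (insert b C.1)
      map_add' := by
        intro u v
        funext C
        simp only [Pi.add_apply]
        rw [← sum_add_distrib]
        refine sum_congr rfl fun b _ => ?_
        unfold ext0
        split_ifs <;> simp
      map_smul' := by
        intro c u
        funext C
        simp only [Pi.smul_apply, smul_eq_mul, RingHom.id_apply]
        rw [mul_sum]
        refine sum_congr rfl fun b _ => ?_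
        unfold ext0
        split_ifs <;> simp }
  have h1 := LinearMap.finrank_range_add_finrank_ker L
  rw [Module.finrank_fintype_fun_eq_card, Fintype.card_finset_len] at h1
  have h2 := Submodule.finrank_le (LinearMap.range L)
  rw [Module.finrank_fintype_fun_eq_card, Fintype.card_finset_len] at h2
  let g : LinearMap.ker L →ₗ[ℂ] Harm Ω (l + 1) :=
    { toFun := fun u => ⟨ext0 u.1, by
        refine ⟨fun B hB => dif_neg hB, fun C => ?_⟩
        by_cases hC : C.card = l
        · exact congrFun (LinearMap.mem_ker.mp u.2) ⟨C, hC⟩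
        · refine sum_eq_zero fun b hb => ?_
          apply dif_neg
          rw [card_insert_of_notMem (mem_compl.mp hb)]
          omega⟩
      map_add' := by
        intro u v
        apply Subtype.ext
        funext B
        change ext0 (u.1 + v.1) B = ext0 u.1 B + ext0 v.1 B
        unfold ext0
        split_ifs <;> simp
      map_smul' := by
        intro c u
        apply Subtype.ext
        funext B
        change ext0 (c • u.1) B = c • ext0 u.1 B
        unfold ext0
        split_ifs <;> simp }
  have h3 : Module.finrank ℂ (LinearMap.ker L) ≤ Module.finrank ℂ (Harm Ω (l + 1)) := by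
    apply LinearMap.finrank_le_finrank_of_injective (f := g)
    intro u v huv
    apply Subtype.ext
    funext B
    have h4 : ext0 u.1 B.1 = ext0 v.1 B.1 := congrFun (congrArg Subtype.val huv) B.1
    unfold ext0 at h4
    rwa [dif_pos B.2, dif_pos B.2] at h4
  omega

end dim

theorem catalan_le (m : ℕ) : catalan (2 * m) ≤
    Module.finrank ℂ (Harm (Fin m × Fin 4) (2 * m)) := by
  rcases Nat.eq_zero_or_pos m with rfl | hm
  · -- one function
    have h1 : (fun B : Finset (Fin 0 × Fin 4) => (1 : ℂ)) ∈ Harm (Fin 0 × Fin 4) (2 * 0) := by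
      refine ⟨fun B hB => ?_, fun C => ?_⟩
      · exfalso
        apply hB
        rw [mul_zero, card_eq_zero]
        exact Finset.eq_empty_of_isEmpty B
      · rw [Finset.eq_empty_of_isEmpty (Cᶜ)]
        rfl
    have h2 : 0 < Module.finrank ℂ (Harm (Fin 0 × Fin 4) (2 * 0)) := by
      rw [Module.finrank_pos_iff_exists_ne_zero]
      refine ⟨⟨_, h1⟩, fun h => ?_⟩
      have := congrFun (congrArg Subtype.val h) ∅
      exact one_ne_zero this
    rw [mul_zero, catalan_zero]
    exact h2
  · obtain ⟨l, hl⟩ : ∃ l, 2 * m = l + 1 := ⟨2 * m - 1, by omega⟩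
    have h1 := harm_dim (Ω := Fin m × Fin 4) l
    rw [← hl] at h1
    have hc : Fintype.card (Fin m × Fin 4) = 2 * (2 * m) := by
      simp only [Fintype.card_prod, Fintype.card_fin]
      ring
    rw [hc] at h1
    have h2 := Nat.choose_succ_right_eq (2 * (2 * m)) l
    rw [← hl] at h2
    have h3 : 2 * (2 * m) - l = 2 * m + 1 := by omega
    rw [h3] at h2
    have h4 := succ_mul_catalan_eq_centralBinom (2 * m)
    rw [Nat.centralBinom_eq_two_mul_choose] at h4
    set X := (2 * (2 * m)).choose (2 * m) with hX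
    set Y := (2 * (2 * m)).choose l with hY
    set D := Module.finrank ℂ (Harm (Fin m × Fin 4) (2 * m)) with hD
    set c := catalan (2 * m) with hc'
    -- (2m+1) c = X, 2m X = (2m+1) Y, X ≤ D + Y
    have h5 : (2 * m + 1) * (c + Y) = (2 * m + 1) * X := by
      rw [mul_add, h4, mul_comm (2 * m + 1) Y, ← h2]
      ring
    have h6 : c + Y = X := Nat.eq_of_mul_eq_mul_left (by omega) h5
    omega

theorem pow_le_catalan (m : ℕ) : 16 ^ m ≤ (4 * m + 1) * (2 * m + 1) * catalan (2 * m) := by
  rcases Nat.eq_zero_or_pos m with rfl | hm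
  · simp
  · have h1 := Nat.four_pow_le_two_mul_self_mul_centralBinom (2 * m) (by omega)
    rw [← succ_mul_catalan_eq_centralBinom] at h1
    have h2 : (16 : ℕ) ^ m = 4 ^ (2 * m) := by
      rw [pow_mul]
      norm_num
    rw [h2]
    refine h1.trans ?_
    rw [mul_assoc (4 * m + 1)]
    refine Nat.mul_le_mul ?_ le_rfl
    omega

theorem slice_comp {F : Type} [Field F] {A A' : Type} {k : ℕ} (f : (Fin k → A) → F) (φ : A' → A)
    (R : ℕ) (hR : SliceRankLE f R) : SliceRankLE (fun x : Fin k → A' => f (fun j => φ (x j))) R := by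
  obtain ⟨d, g, h, hh, hf⟩ := hR
  refine ⟨d, fun j a => g j (φ a), fun j x => h j (fun i => φ (x i)), ?_, ?_⟩
  · intro j x y hxy
    exact hh j _ _ fun i hi => by rw [hxy i hi]
  · intro x
    exact hf _

/-- the bound for an arbitrary layer -/
theorem layer_bound (k : ℕ) (hk : 4 ≤ k) (n l m : ℕ) (h1 : 2 * m ≤ l) (h2 : l + 2 * m ≤ n)
    (f : (Fin k → {A : Finset (Fin n) // A.card = l}) → ℂ)
    (hinv : ∀ (π : Equiv.Perm (Fin n)) (x y : Fin k → {A : Finset (Fin n) // A.card = l}),
      (∀ j, (y j : Finset (Fin n)) = (x j : Finset (Fin n)).map π.toEmbedding) → f y = f x)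
    (hdiag : ∀ A, f (fun _ => A) ≠ 0)
    (hsupp : ∀ x, f x ≠ 0 → ∀ i : Fin n,
      (univ.filter fun j => i ∈ (x j : Finset (Fin n))).card = 0 ∨
      (univ.filter fun j => i ∈ (x j : Finset (Fin n))).card = 1 ∨
      (univ.filter fun j => i ∈ (x j : Finset (Fin n))).card = k)
    (R : ℕ) (hR : SliceRankLE f R) : catalan (2 * m) ≤ R := by
  classical
  -- an embedding of the blocks
  have hle : Fintype.card (Fin m × Fin 4) ≤ Fintype.card (Fin n) := by
    simp only [Fintype.card_prod, Fintype.card_fin]
    omega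
  obtain ⟨ι⟩ := Function.Embedding.nonempty_of_card_le hle
  -- the additional points
  have hZ : ∃ Z : Finset (Fin n), Z ⊆ (univ.map ι)ᶜ ∧ Z.card = l - 2 * m := by
    apply exists_subset_card_eq
    rw [card_compl, card_map, card_univ]
    simp only [Fintype.card_prod, Fintype.card_fin]
    omega
  obtain ⟨Z, hZ1, hZ2⟩ := hZ
  have hZι : ∀ z ∈ Z, z ∉ Set.range ι := by
    rintro z hz ⟨w, rfl⟩
    exact (mem_compl.mp (hZ1 hz)) (mem_map_of_mem ι (mem_univ w))
  have hcardE : ∀ B : Finset (Fin m × Fin 4), B.card = 2 * m → (B.map ι ∪ Z).card = l := by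
    intro B hB
    rw [card_union_of_disjoint, card_map, hB, hZ2]
    · omega
    · rw [disjoint_left]
      intro z hz hz'
      obtain ⟨w, -, rfl⟩ := mem_map.mp hz
      exact hZι _ hz' ⟨w, rfl⟩
  let B0 : Finset (Fin m × Fin 4) := univ.filter fun z => z.2 = 0 ∨ z.2 = 1
  have hB0 : B0.card = 2 * m := card_of_blk fun t => by
    have : blk t B0 = {0, 1} := by
      ext c
      rw [mem_blk]
      simp [B0]
    rw [this]
    rfl
  let E : Finset (Fin m × Fin 4) → {A : Finset (Fin n) // A.card = l} := fun B =>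
    if h : B.card = 2 * m then ⟨B.map ι ∪ Z, hcardE B h⟩ else ⟨B0.map ι ∪ Z, hcardE B0 hB0⟩
  have hE : ∀ B, B.card = 2 * m → (E B : Finset (Fin n)) = B.map ι ∪ Z := by
    intro B hB
    simp only [E, dif_pos hB]
  let w : Finset (Fin m × Fin 4) → ℂ := fun B => if B.card = 2 * m then 1 else 0
  let g : (Fin k → Finset (Fin m × Fin 4)) → ℂ := fun x => (∏ j, w (x j)) * f (fun j => E (x j))
  have hw : ∀ x : Fin k → Finset (Fin m × Fin 4), ∏ j, w (x j) ≠ 0 → ∀ j, (x j).card = 2 * m := by
    intro x hx j
    have := prod_ne_zero_iff.mp hx j (mem_univ j)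
    by_contra h
    exact this (if_neg h)
  have hgR : SliceRankLE g R := by
    obtain ⟨d, u, h, hh, hf⟩ := slice_comp f E R hR
    refine ⟨d, fun j a => w a * u j a, fun j x => (∏ i ∈ univ.erase (d j), w (x i)) * h j x,
      ?_, ?_⟩
    · intro j x y hxy
      change (∏ i ∈ univ.erase (d j), w (x i)) * h j x = (∏ i ∈ univ.erase (d j), w (y i)) * h j y
      rw [hh j x y hxy]
      congr 1
      exact prod_congr rfl fun i hi => by rw [hxy i (ne_of_mem_erase hi)]
    · intro x
      have hfx : f (fun j => E (x j)) = ∑ j, u j (x (d j)) * h j x := hf x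
      change (∏ j, w (x j)) * f (fun j => E (x j)) =
        ∑ j, w (x (d j)) * u j (x (d j)) * ((∏ i ∈ univ.erase (d j), w (x i)) * h j x)
      rw [hfx, mul_sum]
      refine sum_congr rfl fun j _ => ?_
      rw [← mul_prod_erase univ (fun i => w (x i)) (mem_univ (d j))]
      ring
  have hginv : ∀ (π : Equiv.Perm (Fin m × Fin 4)) x, g (fun j => pm π (x j)) = g x := by
    intro π x
    have e1 : ∏ j, w (pm π (x j)) = ∏ j, w (x j) := by
      refine prod_congr rfl fun j _ => ?_
      simp only [w, card_pm]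
    change (∏ j, w (pm π (x j))) * f (fun j => E (pm π (x j))) = (∏ j, w (x j)) * f (fun j => E (x j))
    rw [e1]
    by_cases h0 : ∏ j, w (x j) = 0
    · rw [h0, zero_mul, zero_mul]
    · congr 1
      apply hinv (π.viaFintypeEmbedding ι)
      intro j
      have hxj := hw x h0 j
      rw [hE _ (by rw [card_pm, hxj]), hE _ hxj]
      ext z
      obtain ⟨y, rfl⟩ := (π.viaFintypeEmbedding ι).surjective z
      rw [mem_map_equiv, Equiv.symm_apply_apply, mem_union, mem_union]
      by_cases hy : y ∈ Set.range ι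
      · obtain ⟨c, rfl⟩ := hy
        rw [Equiv.Perm.viaFintypeEmbedding_apply_image]
        have z1 : ι (π c) ∉ Z := fun h => hZι _ h ⟨_, rfl⟩
        have z2 : ι c ∉ Z := fun h => hZι _ h ⟨_, rfl⟩
        rw [mem_map' ι, mem_map' ι, mem_pm]
        simp [z1, z2]
      · rw [Equiv.Perm.viaFintypeEmbedding_apply_notMem_range _ _ hy]
        have z1 : y ∉ (pm π (x j)).map ι := fun h => by
          obtain ⟨c, -, hc⟩ := mem_map.mp h
          exact hy ⟨c, hc⟩
        have z2 : y ∉ (x j).map ι := fun h => by
          obtain ⟨c, -, hc⟩ := mem_map.mp h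
          exact hy ⟨c, hc⟩
        simp [z1, z2]
  obtain ⟨h, hM, hne⟩ := exists_nonvanishing hk g hginv
    (by
      intro B hB
      apply mul_ne_zero
      · rw [prod_ne_zero_iff]
        intro j _
        simp [w, hB]
      · exact hdiag _)
    (by
      intro x hx i
      have hx1 := hw x (left_ne_zero_of_mul hx)
      have hx2 := hsupp _ (right_ne_zero_of_mul hx) (ι i)
      have e : ∀ j, (ι i ∈ (E (x j) : Finset (Fin n))) ↔ i ∈ x j := by
        intro j
        rw [hE _ (hx1 j), mem_union, mem_map' ι]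
        have : ι i ∉ Z := fun h => hZι _ h ⟨_, rfl⟩
        simp [this]
      simp only [e] at hx2
      exact hx2)
  exact (catalan_le m).trans (le_of_inv g hginv h hM hne R hgR)

end Pool.Agent.H148.SF
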