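import Pool.Agent.H148.SF.Bound

/-!
# Harmonic functions on the middle layer

`Harm Ω l` is the space of the functions on the `l`-subsets of a finite set `Ω` which are orthogonal
to all functions of degree less than `l`. A kernel invariant under the symmetric group with rows in
this space is a multiple of the reproducing kernel (`schur`).
-/

set_option autoImplicit false

namespace Pool.Agent.H148.SF

open Finset Pool.Agent.H148.SR
open scoped ComplexConjugate

variable {Ω : Type} [Fintype Ω] [DecidableEq Ω]

/-- functions supported on the `l`-subsets such that the sum over the `l`-sets containing a given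
`(l-1)`-set is zero -/
def Harm (Ω : Type) [Fintype Ω] [DecidableEq Ω] (l : ℕ) : Submodule ℂ (Finset Ω → ℂ) where
  carrier := {h | (∀ B, B.card ≠ l → h B = 0) ∧ ∀ C : Finset Ω, ∑ b ∈ Cᶜ, h (insert b C) = 0}
  zero_mem' := by simp
  add_mem' := by
    rintro g h ⟨hg1, hg2⟩ ⟨hh1, hh2⟩
    refine ⟨fun B hB => ?_, fun C => ?_⟩
    · rw [Pi.add_apply, hg1 B hB, hh1 B hB, add_zero]
    · simp only [Pi.add_apply]
      rw [sum_add_distrib, hg2, hh2, add_zero]
  smul_mem' := by
    rintro c g ⟨hg1, hg2⟩
    refine ⟨fun B hB => ?_, fun C => ?_⟩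
    · rw [Pi.smul_apply, hg1 B hB, smul_zero]
    · simp only [Pi.smul_apply]
      rw [← smul_sum, hg2, smul_zero]

/-- the action of a permutation on subsets -/
def pm (π : Equiv.Perm Ω) : Finset Ω ≃ Finset Ω := π.finsetCongr

theorem pm_apply (π : Equiv.Perm Ω) (B : Finset Ω) : pm π B = B.map π.toEmbedding := rfl

theorem mem_pm (π : Equiv.Perm Ω) (B : Finset Ω) (a : Ω) : π a ∈ pm π B ↔ a ∈ B := by
  rw [pm_apply]
  simp

theorem card_pm (π : Equiv.Perm Ω) (B : Finset Ω) : (pm π B).card = B.card := by
  rw [pm_apply, card_map]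

theorem harm_comp {l : ℕ} (π : Equiv.Perm Ω) {h : Finset Ω → ℂ} (hh : h ∈ Harm Ω l) :
    (fun B => h (pm π B)) ∈ Harm Ω l := by
  obtain ⟨h1, h2⟩ := hh
  refine ⟨fun B hB => h1 _ (by rwa [card_pm]), fun C => ?_⟩
  rw [← h2 (pm π C)]
  refine sum_equiv π (fun b => ?_) (fun b _ => ?_)
  · rw [mem_compl, mem_compl, mem_pm]
  · change h (pm π (insert b C)) = h (insert (π b) (pm π C))
    rw [pm_apply, pm_apply, map_insert]
    rfl

/-- two subsets with the same sizes in and outside `A` are conjugate under the stabiliser of `A` -/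
theorem exists_pm (A B C : Finset Ω) (h1 : B.card = C.card) (h2 : (A ∩ B).card = (A ∩ C).card) :
    ∃ π : Equiv.Perm Ω, pm π A = A ∧ pm π B = C := by
  have hcard : ∀ c : Bool × Bool,
      Fintype.card {a : Ω // (decide (a ∈ A), decide (a ∈ B)) = c} =
      Fintype.card {a : Ω // (decide (a ∈ A), decide (a ∈ C)) = c} := by
    intro c
    rw [Fintype.card_subtype, Fintype.card_subtype]
    have e1 : ∀ D : Finset Ω, (univ.filter fun a : Ω => (decide (a ∈ A), decide (a ∈ D)) = (true, true)) = A ∩ D := by
      intro D; ext a; simp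
    have e2 : ∀ D : Finset Ω, (univ.filter fun a : Ω => (decide (a ∈ A), decide (a ∈ D)) = (true, false)) = A \ D := by
      intro D; ext a; simp
    have e3 : ∀ D : Finset Ω, (univ.filter fun a : Ω => (decide (a ∈ A), decide (a ∈ D)) = (false, true)) = D \ A := by
      intro D; ext a; simp [and_comm]
    have e4 : ∀ D : Finset Ω, (univ.filter fun a : Ω => (decide (a ∈ A), decide (a ∈ D)) = (false, false)) = (A ∪ D)ᶜ := by
      intro D; ext a; simp
    have k1 := card_inter_add_card_sdiff A B
    have k2 := card_inter_add_card_sdiff A C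
    have k3 := card_inter_add_card_sdiff B A
    have k4 := card_inter_add_card_sdiff C A
    have k5 := card_union_add_card_inter A B
    have k6 := card_union_add_card_inter A C
    have k7 := card_le_univ (A ∪ B)
    have k8 := card_le_univ (A ∪ C)
    rw [inter_comm B A] at k3
    rw [inter_comm C A] at k4
    rcases c with ⟨_ | _, _ | _⟩
    · rw [e4, e4, card_compl, card_compl]; omega
    · rw [e3, e3]; omega
    · rw [e2, e2]; omega
    · rw [e1, e1]; omega
  let π : Equiv.Perm Ω := Equiv.ofFiberEquiv (f := fun a => (decide (a ∈ A), decide (a ∈ B)))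
    (g := fun a => (decide (a ∈ A), decide (a ∈ C))) (fun c => Fintype.equivOfCardEq (hcard c))
  have hπ : ∀ a, (decide (π a ∈ A), decide (π a ∈ C)) = (decide (a ∈ A), decide (a ∈ B)) := by
    intro a
    exact Equiv.ofFiberEquiv_map (f := fun a => (decide (a ∈ A), decide (a ∈ B)))
      (g := fun a => (decide (a ∈ A), decide (a ∈ C))) (fun c => Fintype.equivOfCardEq (hcard c)) a
  refine ⟨π, ?_, ?_⟩
  · ext x
    obtain ⟨a, rfl⟩ := π.surjective x
    rw [mem_pm]
    have := congrArg Prod.fst (hπ a)
    simpa [eq_comm] using this.symm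
  · ext x
    obtain ⟨a, rfl⟩ := π.surjective x
    rw [mem_pm]
    have := congrArg Prod.snd (hπ a)
    simpa [eq_comm] using this.symm

/-- a harmonic function depending only on the intersection with `A` which vanishes at `A` is zero -/
theorem radial_zero {l : ℕ} {A : Finset Ω} (hA : A.card = l) {u : Finset Ω → ℂ}
    (hu : u ∈ Harm Ω l) (hrad : ∀ B C : Finset Ω, B.card = C.card →
      (A ∩ B).card = (A ∩ C).card → u B = u C) (h0 : u A = 0) : u = 0 := by
  obtain ⟨hu1, hu2⟩ := hu
  have key : ∀ d : ℕ, ∀ B : Finset Ω, B.card = l → (A ∩ B).card + d = l → u B = 0 := by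
    intro d
    induction d with
    | zero =>
      intro B hB hd
      have h1 : A ∩ B = A := eq_of_subset_of_card_le inter_subset_left (by omega)
      have h2 : A ∩ B = B := eq_of_subset_of_card_le inter_subset_right (by omega)
      rw [← h2, h1, h0]
    | succ d ih =>
      intro B hB hd
      have h1 := card_inter_add_card_sdiff B A
      rw [inter_comm] at h1
      have h2 : (B \ A).Nonempty := by
        rw [← card_pos]
        omega
      obtain ⟨b0, hb0⟩ := h2
      have hbB := (mem_sdiff.mp hb0).1
      have hbA := (mem_sdiff.mp hb0).2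
      have h3 := hu2 (B.erase b0)
      have h4 : ∀ b ∈ (B.erase b0)ᶜ, u (insert b (B.erase b0)) = if b ∈ A then 0 else u B := by
        intro b hb
        have hb' : b ∉ B.erase b0 := mem_compl.mp hb
        have hc : (insert b (B.erase b0)).card = l := by
          rw [card_insert_of_notMem hb', card_erase_of_mem hbB]
          have : 0 < B.card := card_pos.mpr ⟨b0, hbB⟩
          omega
        have h5 : (A ∩ B.erase b0) = A ∩ B := by
          ext x
          simp only [mem_inter, mem_erase]
          constructor
          · rintro ⟨h, -, h'⟩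
            exact ⟨h, h'⟩
          · rintro ⟨h, h'⟩
            exact ⟨h, fun h'' => hbA (h'' ▸ h), h'⟩
        split_ifs with hbA'
        · apply ih _ hc
          rw [inter_insert_of_mem hbA', card_insert_of_notMem, h5]
          · omega
          · exact fun h => hb' (mem_inter.mp h).2
        · apply hrad
          · rw [hc, hB]
          · rw [inter_insert_of_notMem hbA', h5]
      rw [sum_congr rfl h4, ← sum_filter_add_sum_filter_not _ (fun b => b ∈ A)] at h3
      rw [sum_congr rfl (g := fun _ => (0 : ℂ)) (fun b hb => if_pos (mem_filter.mp hb).2),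
        sum_congr rfl (g := fun _ => u B) (fun b hb => if_neg (mem_filter.mp hb).2)] at h3
      rw [sum_const_zero, zero_add, sum_const, nsmul_eq_mul, mul_eq_zero] at h3
      rcases h3 with h3 | h3
      · exfalso
        have h6 : b0 ∈ ((B.erase b0)ᶜ).filter (fun b => b ∉ A) := by
          rw [mem_filter, mem_compl]
          exact ⟨notMem_erase _ _, hbA⟩
        have h7 : 0 < (((B.erase b0)ᶜ).filter (fun b => b ∉ A)).card := card_pos.mpr ⟨b0, h6⟩
        have : ((((B.erase b0)ᶜ).filter (fun b => b ∉ A)).card : ℂ) ≠ 0 := by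
          exact_mod_cast h7.ne'
        exact this h3
      · exact h3
  funext B
  by_cases hB : B.card = l
  · have : (A ∩ B).card ≤ l := by
      rw [← hA]
      exact card_le_card inter_subset_left
    exact key (l - (A ∩ B).card) B hB (by omega)
  · exact hu1 B hB

/-- the reproducing kernel is invariant -/
theorem kernel_inv {l : ℕ} {P : Finset Ω → Finset Ω → ℂ} (hP : IsKernel (Harm Ω l) P)
    (π : Equiv.Perm Ω) (a b : Finset Ω) : P (pm π a) (pm π b) = P a b := by
  have h : IsKernel (Harm Ω l) (fun a b => P (pm π a) (pm π b)) := by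
    constructor
    · intro a
      exact harm_comp π (hP.mem (pm π a))
    · intro v hv b
      have hv' : (fun B => v (pm π⁻¹ B)) ∈ Harm Ω l := harm_comp π⁻¹ hv
      have hinv : ∀ B : Finset Ω, pm π⁻¹ (pm π B) = B := by
        intro B
        rw [pm_apply, pm_apply, map_map]
        ext x
        simp
      have h1 := hP.rep _ hv' (pm π b)
      simp only [hinv] at h1
      rw [h1, ← Equiv.sum_comp (pm π)]
      refine sum_congr rfl fun a _ => ?_
      rw [hinv]
    · intro a b
      exact hP.symm _ _
  have := h.unique hP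
  exact congrFun (congrFun this a) b

theorem kernel_diag {l : ℕ} {P : Finset Ω → Finset Ω → ℂ} (hP : IsKernel (Harm Ω l) P)
    {b : Finset Ω} (hb : P b b = 0) (x : Finset Ω) : P x b = 0 := by
  have h1 : P b b = ∑ x, P b x * P x b := hP.rep _ (hP.mem b) b
  have h2 : ∀ x, P b x * P x b = (Complex.normSq (P x b) : ℂ) := by
    intro x
    rw [← hP.symm x b, mul_comm, Complex.mul_conj]
  rw [hb, sum_congr rfl fun x _ => h2 x, ← Complex.ofReal_sum] at h1
  have h3 : ∑ x, Complex.normSq (P x b) = 0 := by exact_mod_cast h1.symm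
  exact Complex.normSq_eq_zero.mp
    ((sum_eq_zero_iff_of_nonneg fun x _ => Complex.normSq_nonneg _).mp h3 x (mem_univ x))

/-- **Schur's lemma** for harmonic functions -/
theorem schur {l : ℕ} {P K : Finset Ω → Finset Ω → ℂ} (hP : IsKernel (Harm Ω l) P)
    (hK : ∀ a, (fun b => K a b) ∈ Harm Ω l) (hK0 : ∀ a b, a.card ≠ l → K a b = 0)
    (hinv : ∀ (π : Equiv.Perm Ω) a b, K (pm π a) (pm π b) = K a b) :
    ∃ c : ℂ, ∀ a b, K a b = c * P b a := by
  have hP0 : ∀ a b : Finset Ω, b.card ≠ l → P a b = 0 := by
    intro a b hb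
    have h0 : P b a = 0 := (hP.mem a).1 b hb
    rw [← hP.symm b a, h0, map_zero]
  have hone : ∀ a : Finset Ω, a.card = l → ∀ b, K a a * P b a = P a a * K a b := by
    intro a ha b
    have h1 : (K a a • (fun b => P b a) - P a a • (fun b => K a b)) = 0 := by
      apply radial_zero ha
      · exact Submodule.sub_mem _ (Submodule.smul_mem _ _ (hP.mem a))
          (Submodule.smul_mem _ _ (hK a))
      · intro B C hBC hABC
        obtain ⟨π, hπ1, hπ2⟩ := exists_pm a B C hBC hABC
        have h2 := kernel_inv hP π B a
        have h3 := hinv π a B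
        rw [hπ1, hπ2] at h2 h3
        simp only [Pi.sub_apply, Pi.smul_apply, smul_eq_mul]
        rw [h2, h3]
      · simp only [Pi.sub_apply, Pi.smul_apply, smul_eq_mul]
        ring
    have h2 := congrFun h1 b
    simp only [Pi.sub_apply, Pi.smul_apply, smul_eq_mul, Pi.zero_apply] at h2
    exact sub_eq_zero.mp h2
  by_cases hl : ∃ a0 : Finset Ω, a0.card = l
  · obtain ⟨a0, ha0⟩ := hl
    have htr : ∀ a : Finset Ω, a.card = l → P a a = P a0 a0 ∧ K a a = K a0 a0 := by
      intro a ha
      obtain ⟨π, -, hπ⟩ := exists_pm ∅ a0 a (by rw [ha0, ha]) (by simp)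
      have h1 := kernel_inv hP π a0 a0
      have h2 := hinv π a0 a0
      rw [hπ] at h1 h2
      exact ⟨h1, h2⟩
    by_cases hz : P a0 a0 = 0
    · refine ⟨0, fun a b => ?_⟩
      rw [zero_mul]
      by_cases hb : b.card = l
      · have h1 := hP.rep _ (hK a) b
        rw [h1]
        refine sum_eq_zero fun x _ => ?_
        rw [← hP.symm x b, kernel_diag hP ((htr b hb).1.trans hz) x, map_zero, zero_mul]
      · exact (hK a).1 b hb
    · refine ⟨K a0 a0 / P a0 a0, fun a b => ?_⟩
      by_cases ha : a.card = l
      · have h1 := hone a ha b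
        rw [(htr a ha).1, (htr a ha).2] at h1
        field_simp
        rw [mul_comm]
        exact h1.symm
      · rw [hK0 a b ha, hP0 b a ha, mul_zero]
  · refine ⟨0, fun a b => ?_⟩
    rw [hK0 a b (fun h => hl ⟨a, h⟩), zero_mul]

end Pool.Agent.H148.SF
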