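import Pool.Agent.H148.SF.Harm

/-!
# The marginals of an invariant form on the harmonic functions are scalar
-/

set_option autoImplicit false

namespace Pool.Agent.H148.SF

open Finset Pool.Agent.H148.SR
open scoped ComplexConjugate

variable {Ω : Type} [Fintype Ω] [DecidableEq Ω] {k : ℕ}

/-- the marginal of `f` for the index `i`, the other indices being contracted with `P` -/
noncomputable def kap (f : (Fin k → Finset Ω) → ℂ) (P : Finset Ω → Finset Ω → ℂ) (i : Fin k)
    (a b : Finset Ω) : ℂ :=
  ∑ x, ∑ y, (if x i = a ∧ y i = b then f x * conj (f y) *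
    ∏ j, (if j = i then 1 else P (x j) (y j)) else 0)

theorem kap_inv (f : (Fin k → Finset Ω) → ℂ) (P : Finset Ω → Finset Ω → ℂ)
    (hf : ∀ (π : Equiv.Perm Ω) x, f (fun j => pm π (x j)) = f x)
    (hP : ∀ (π : Equiv.Perm Ω) a b, P (pm π a) (pm π b) = P a b) (i : Fin k)
    (π : Equiv.Perm Ω) (a b : Finset Ω) : kap f P i (pm π a) (pm π b) = kap f P i a b := by
  unfold kap
  let e : (Fin k → Finset Ω) ≃ (Fin k → Finset Ω) := Equiv.arrowCongr (Equiv.refl _) (pm π)
  have he : ∀ x, e x = fun j => pm π (x j) := fun x => rfl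
  rw [← Equiv.sum_comp e]
  refine sum_congr rfl fun x _ => ?_
  rw [← Equiv.sum_comp e]
  refine sum_congr rfl fun y _ => ?_
  rw [he, he, hf, hf]
  have h1 : ((pm π) (x i) = (pm π) a ∧ (pm π) (y i) = (pm π) b) ↔ (x i = a ∧ y i = b) := by
    rw [(pm π).injective.eq_iff, (pm π).injective.eq_iff]
  by_cases h : x i = a ∧ y i = b
  · rw [if_pos h, if_pos (h1.mpr h)]
    congr 1
    refine prod_congr rfl fun j _ => ?_
    split_ifs
    · rfl
    · exact hP π _ _
  · rw [if_neg h, if_neg (fun h' => h (h1.mp h'))]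

theorem kap_spec (f : (Fin k → Finset Ω) → ℂ) (P : Finset Ω → Finset Ω → ℂ) (i : Fin k)
    (v : Finset Ω → ℂ) :
    ∑ x, ∑ y, f x * conj (f y) *
      ∏ j, (if j = i then v (x j) * conj (v (y j)) else P (x j) (y j)) =
    ∑ a, ∑ b, v a * conj (v b) * kap f P i a b := by
  unfold kap
  have h1 : ∀ x y : Fin k → Finset Ω, f x * conj (f y) *
      ∏ j, (if j = i then v (x j) * conj (v (y j)) else P (x j) (y j)) =
      ∑ a, ∑ b, v a * conj (v b) * (if x i = a ∧ y i = b then f x * conj (f y) *
        ∏ j, (if j = i then 1 else P (x j) (y j)) else 0) := by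
    intro x y
    rw [sum_eq_single (x i), sum_eq_single (y i)]
    · rw [if_pos ⟨rfl, rfl⟩]
      have h2 : ∏ j, (if j = i then v (x j) * conj (v (y j)) else P (x j) (y j)) =
          v (x i) * conj (v (y i)) * ∏ j, (if j = i then 1 else P (x j) (y j)) := by
        rw [← mul_prod_erase univ _ (mem_univ i), ← mul_prod_erase univ
          (fun j => if j = i then 1 else P (x j) (y j)) (mem_univ i)]
        rw [if_pos rfl, if_pos rfl, one_mul]
        congr 1
        refine prod_congr rfl fun j hj => ?_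
        rw [if_neg (ne_of_mem_erase hj), if_neg (ne_of_mem_erase hj)]
      rw [h2]
      ring
    · intro b _ hb
      rw [if_neg (fun h => hb h.2.symm), mul_zero]
    · intro h
      exact absurd (mem_univ _) h
    · intro a _ ha
      refine sum_eq_zero fun b _ => ?_
      rw [if_neg (fun h => ha h.1.symm), mul_zero]
    · intro h
      exact absurd (mem_univ _) h
  simp_rw [h1, mul_sum]
  rw [sum_congr rfl fun x _ => sum_comm, sum_comm]
  refine sum_congr rfl fun a _ => ?_
  rw [sum_congr rfl fun x _ => sum_comm, sum_comm]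

theorem marg {l : ℕ} {P : Finset Ω → Finset Ω → ℂ} (hP : IsKernel (Harm Ω l) P)
    (f : (Fin k → Finset Ω) → ℂ)
    (hf : ∀ (π : Equiv.Perm Ω) x, f (fun j => pm π (x j)) = f x) (i : Fin k) :
    ∃ c : ℂ, ∀ v ∈ Harm Ω l, ∑ x, ∑ y, f x * conj (f y) *
      ∏ j, (if j = i then v (x j) * conj (v (y j)) else P (x j) (y j)) =
        c * ∑ a, v a * conj (v a) := by
  let K : Finset Ω → Finset Ω → ℂ := fun a b =>
    ∑ a', ∑ b', P a' a * P b b' * kap f P i a' b'
  obtain ⟨c, hc⟩ := schur (P := P) (K := K) hP (by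
      intro a
      have h1 : (fun b => K a b) = ∑ a', ∑ b', (P a' a * kap f P i a' b') • (fun b => P b b') := by
        funext b
        simp only [K, Finset.sum_apply, Pi.smul_apply, smul_eq_mul]
        refine sum_congr rfl fun a' _ => sum_congr rfl fun b' _ => ?_
        ring
      rw [h1]
      exact Submodule.sum_mem _ fun a' _ => Submodule.sum_mem _ fun b' _ =>
        Submodule.smul_mem _ _ (hP.mem b'))
    (by
      intro a b ha
      refine sum_eq_zero fun a' _ => sum_eq_zero fun b' _ => ?_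
      have h0 : P a a' = 0 := (hP.mem a').1 a ha
      rw [← hP.symm a a', h0, map_zero, zero_mul, zero_mul])
    (by
      intro π a b
      simp only [K]
      rw [← Equiv.sum_comp (pm π)]
      refine sum_congr rfl fun a' _ => ?_
      rw [← Equiv.sum_comp (pm π)]
      refine sum_congr rfl fun b' _ => ?_
      rw [kernel_inv hP, kernel_inv hP, kap_inv f P hf (kernel_inv hP)])
  refine ⟨c, fun v hv => ?_⟩
  rw [kap_spec]
  have hv1 : ∀ a', v a' = ∑ a, P a' a * v a := hP.rep v hv
  have hv2 : ∀ b', conj (v b') = ∑ b, P b b' * conj (v b) := by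
    intro b'
    rw [hv1 b', map_sum]
    refine sum_congr rfl fun b _ => ?_
    rw [map_mul, hP.symm]
  have h3 : ∀ a' b', v a' * conj (v b') * kap f P i a' b' =
      ∑ a, ∑ b, v a * conj (v b) * (P a' a * P b b' * kap f P i a' b') := by
    intro a' b'
    rw [hv1 a', hv2 b', sum_mul_sum, sum_mul]
    refine sum_congr rfl fun a _ => ?_
    rw [sum_mul]
    refine sum_congr rfl fun b _ => ?_
    ring
  have h4 : ∑ a', ∑ b', v a' * conj (v b') * kap f P i a' b' =
      ∑ a, ∑ b, v a * conj (v b) * K a b := by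
    simp_rw [h3, K, mul_sum]
    rw [sum_congr rfl fun x _ => sum_comm, sum_comm]
    refine sum_congr rfl fun a _ => ?_
    rw [sum_congr rfl fun x _ => sum_comm, sum_comm]
  rw [h4, mul_sum, sum_comm]
  refine sum_congr rfl fun b _ => ?_
  have h5 : ∑ a, v a * conj (v b) * K a b = c * conj (v b) * ∑ a, P b a * v a := by
    rw [mul_sum]
    refine sum_congr rfl fun a _ => ?_
    rw [hc a b]
    ring
  rw [h5, ← hv1 b]
  ring

/-- slice rank bound for invariant forms which do not vanish on the harmonic functions -/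
theorem le_of_inv {l : ℕ} (f : (Fin k → Finset Ω) → ℂ)
    (hf : ∀ (π : Equiv.Perm Ω) x, f (fun j => pm π (x j)) = f x)
    (h : Fin k → Finset Ω → ℂ) (hM : ∀ i, h i ∈ Harm Ω l) (hne : form f h ≠ 0)
    (R : ℕ) (hR : SliceRankLE f R) : Module.finrank ℂ (Harm Ω l) ≤ R := by
  obtain ⟨b, -, -, -, -, -, hP, -⟩ := exists_onb (Harm Ω l) ⊤
  choose c hc using fun i => marg hP f hf i
  exact le_of_marginals (Harm Ω l) _ hP f h hM hne c hc R hR

end Pool.Agent.H148.SF
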