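import Pool.Agent.H148.SF.Cube

/-!
# Lower bounds for the slice rank of invariant tensors on `[D]^n` supported on sunflowers
-/

set_option autoImplicit false

namespace Pool.Agent.H148.SF

open Finset Pool.Agent.H148.SR

variable {n d k : ℕ}

theorem cube_core (hk : 2 ≤ k) (f : (Fin k → (Fin n → Fin (d + 1))) → ℂ)
    (hf : ∀ g ∈ CW n (d + 1), ∀ x, f (fun j => g (x j)) = f x)
    (x0 : Fin n → Fin (d + 1)) (hdiag : f (fun _ => x0) ≠ 0)
    (hsupp : ∀ x, f x ≠ 0 → ∀ t i j, i ≠ j → x i t = x j t → ∀ l, x l t = x i t)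
    (des : Fin n → Fin k) (c0 c1 : Fin (d + 1)) (h01 : c0 ≠ c1) (w : Fin (d + 1) → ℂ)
    (S : Finset (Fin (d + 1))) (hS : S.card < k) (h0S : c0 ∈ S) (h1S : c1 ∈ S)
    (hwS : ∀ c, w c ≠ 0 → c ∈ S) (hw0 : w c0 = 1) (hw1 : w c1 = 0) (e : ℕ) (hd : 0 < d)
    (he : ∀ j, e ≤ (univ.filter fun t => des t ≠ j ∨ ∑ c, w c = 0).card)
    (R : ℕ) (hR : SliceRankLE f R) : d ^ e ≤ R := by
  classical
  let u : Fin (d + 1) → ℂ := fun c => (if c = c0 then 1 else 0) - (if c = c1 then 1 else 0)
  have hu : ∑ c, u c = 0 := by simp [u]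
  have huS : ∀ c, u c ≠ 0 → c = c0 ∨ c = c1 := by
    intro c hc
    by_contra hcon
    rw [not_or] at hcon
    apply hc
    simp only [u]
    rw [if_neg hcon.1, if_neg hcon.2, sub_zero]
  let v : Fin k → Fin n → Fin (d + 1) → ℂ := fun j t => if j = des t then w else u
  have hvS : ∀ j t c, v j t c ≠ 0 → c ∈ S := by
    intro j t c hc
    by_cases hj : j = des t
    · simp only [v, if_pos hj] at hc
      exact hwS c hc
    · simp only [v, if_neg hj] at hc
      rcases huS c hc with rfl | rfl
      · exact h0S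
      · exact h1S
  have hprod : ∀ t, ∑ c, ∏ j, v j t c = 1 := by
    intro t
    have h1 : ∀ c, ∏ j, v j t c = w c * u c ^ (k - 1) := by
      intro c
      rw [← mul_prod_erase univ _ (mem_univ (des t))]
      have e1 : v (des t) t c = w c := by simp [v]
      have e2 : ∏ x ∈ univ.erase (des t), v x t c = u c ^ (k - 1) := by
        rw [prod_congr rfl (g := fun _ => u c)]
        · rw [prod_const, card_erase_of_mem (mem_univ _), card_univ, Fintype.card_fin]
        · intro j hj
          simp only [v, if_neg (ne_of_mem_erase hj)]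
      rw [e1, e2]
    rw [sum_congr rfl fun c _ => h1 c, sum_eq_single c0]
    · have : u c0 = 1 := by simp [u, h01]
      rw [hw0, this, one_pow, one_mul]
    · intro c _ hc
      by_cases hc1 : c = c1
      · rw [hc1, hw1, zero_mul]
      · have : u c = 0 := by
          by_contra h
          rcases huS c h with h | h
          · exact hc h
          · exact hc1 h
        rw [this, zero_pow (by omega), mul_zero]
    · intro h
      exact absurd (mem_univ _) h
  let h : Fin k → (Fin n → Fin (d + 1)) → ℂ := fun j x => ∏ t, v j t (x t)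
  have i0 : Fin k := ⟨0, by omega⟩
  -- only the constant tuples contribute
  have h1 : form f h = ∑ x : Fin n → Fin (d + 1), f (fun _ => x) * ∏ i, h i x := by
    unfold form
    symm
    refine sum_of_injOn (fun B => (fun _ => B : Fin k → (Fin n → Fin (d + 1)))) ?_ ?_ ?_ ?_
    · intro B _ C _ hBC
      exact congrFun hBC i0
    · intro B _
      exact mem_coe.mpr (mem_univ _)
    · intro x _ hx
      by_contra hne
      have hfx : f x ≠ 0 := left_ne_zero_of_mul hne
      have hp : ∀ j t, v j t (x j t) ≠ 0 := fun j t =>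
        prod_ne_zero_iff.mp (prod_ne_zero_iff.mp (right_ne_zero_of_mul hne) j (mem_univ j)) t
          (mem_univ t)
      apply hx
      refine ⟨x i0, mem_coe.mpr (mem_univ _), ?_⟩
      funext j t
      -- two of the values coincide
      have hnotinj : ∃ a ∈ (univ : Finset (Fin k)), ∃ b ∈ (univ : Finset (Fin k)), a ≠ b ∧
          x a t = x b t := by
        apply exists_ne_map_eq_of_card_lt_of_maps_to (t := S)
        · rwa [card_univ, Fintype.card_fin]
        · intro j _
          exact mem_coe.mpr (hvS j t _ (hp j t))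
      obtain ⟨a, -, b, -, hab, hxab⟩ := hnotinj
      have h3 := hsupp x hfx t a b hab hxab
      exact (h3 i0).trans (h3 j).symm
    · intro B _
      rfl
  have h2 : form f h = f (fun _ => x0) := by
    rw [h1]
    have h3 : ∀ x : Fin n → Fin (d + 1), f (fun _ => x) = f (fun _ => x0) := by
      intro x
      obtain ⟨g, hg, hgx⟩ := cw_trans x0 x
      have := hf g hg (fun _ => x0)
      simp only [hgx] at this
      exact this
    have h4 : ∀ x : Fin n → Fin (d + 1), f (fun _ => x) * ∏ i, h i x =
        f (fun _ => x0) * ∏ t, ∏ j, v j t (x t) := by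
      intro x
      rw [h3 x]
      congr 1
      exact prod_comm
    rw [sum_congr rfl fun x _ => h4 x, ← mul_sum]
    have h5 : ∑ x : Fin n → Fin (d + 1), ∏ t, ∏ j, v j t (x t) = ∏ t, ∑ c, ∏ j, v j t c := by
      rw [prod_univ_sum, Fintype.piFinset_univ]
    rw [h5, prod_congr rfl fun t _ => hprod t, prod_const_one, mul_one]
  let I : Fin k → Finset (Fin n) := fun j => univ.filter fun t => des t ≠ j ∨ ∑ c, w c = 0
  obtain ⟨J, g, hJ, hg, hne⟩ := exists_sub (D := d + 1) (Nat.succ_pos d) f h (by rwa [h2]) I (by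
    intro j t ht x
    have hv0 : ∑ c, v j t c = 0 := by
      by_cases hj : j = des t
      · simp only [v, if_pos hj]
        rcases (mem_filter.mp ht).2 with h6 | h6
        · exact absurd hj.symm h6
        · exact h6
      · simp only [v, if_neg hj]
        exact hu
    have h7 : ∀ c, h j (Function.update x t c) = v j t c * ∏ s ∈ univ.erase t, v j s (x s) := by
      intro c
      change ∏ s, v j s (Function.update x t c s) = _
      rw [← mul_prod_erase univ _ (mem_univ t), Function.update_self]
      congr 1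
      refine prod_congr rfl fun s hs => ?_
      rw [Function.update_of_ne (ne_of_mem_erase hs)]
    rw [sum_congr rfl fun c _ => h7 c, ← sum_mul, hv0, zero_mul])
  refine slice_bound cw_trans (fun j => SubI n (d + 1) (J j)) (fun j => homog_sub (J j)) f hf g hg
    hne (d ^ e) (fun j => ?_) R hR
  refine le_trans ?_ (sub_dim d (J j))
  exact Nat.pow_le_pow_right hd ((he j).trans (card_le_card (hJ j)))

theorem count_mod (n : ℕ) (j : Fin 3) :
    2 * (n / 3) ≤ (univ.filter fun t : Fin n => (⟨t.val % 3, Nat.mod_lt _ (by norm_num)⟩ : Fin 3) ≠ j).card := by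
  classical
  -- an injection from two copies of `{0, ..., n/3 - 1}`
  let φ : Fin 2 × Fin (n / 3) → Fin n := fun z =>
    ⟨3 * z.2.val + (j.val + 1 + z.1.val) % 3, by
      have h1 := z.2.isLt
      have h2 : (j.val + 1 + z.1.val) % 3 < 3 := Nat.mod_lt _ (by norm_num)
      omega⟩
  have hinj : Function.Injective φ := by
    rintro ⟨a, b⟩ ⟨a', b'⟩ h
    have h1 : 3 * b.val + (j.val + 1 + a.val) % 3 = 3 * b'.val + (j.val + 1 + a'.val) % 3 :=
      congrArg Fin.val h
    have ha := a.isLt
    have ha' := a'.isLt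
    have h2 : b.val = b'.val := by omega
    have h3 : a.val = a'.val := by omega
    exact Prod.ext (Fin.ext h3) (Fin.ext h2)
  have h1 : (univ.image φ) ⊆ (univ.filter fun t : Fin n =>
      (⟨t.val % 3, Nat.mod_lt _ (by norm_num)⟩ : Fin 3) ≠ j) := by
    intro t ht
    obtain ⟨⟨a, b⟩, -, rfl⟩ := mem_image.mp ht
    refine mem_filter.mpr ⟨mem_univ _, fun h => ?_⟩
    have h2 : (3 * b.val + (j.val + 1 + a.val) % 3) % 3 = j.val := congrArg Fin.val h
    have ha := a.isLt
    have hj := j.isLt
    omega
  have h2 := card_le_card h1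
  rw [card_image_of_injective _ hinj, card_univ, Fintype.card_prod, Fintype.card_fin,
    Fintype.card_fin] at h2
  exact h2

theorem cube_bound (hd : 2 ≤ d) (f : (Fin k → (Fin n → Fin (d + 1))) → ℂ)
    (hf : ∀ g ∈ CW n (d + 1), ∀ x, f (fun j => g (x j)) = f x)
    (x0 : Fin n → Fin (d + 1)) (hdiag : f (fun _ => x0) ≠ 0)
    (hsupp : ∀ x, f x ≠ 0 → ∀ t i j, i ≠ j → x i t = x j t → ∀ l, x l t = x i t)
    (R : ℕ) (hR : SliceRankLE f R) :
    (4 ≤ k → d ^ n ≤ R) ∧ (k = 3 → d ^ (2 * (n / 3)) ≤ R) := by
  classical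
  let c0 : Fin (d + 1) := ⟨0, by omega⟩
  let c1 : Fin (d + 1) := ⟨1, by omega⟩
  let c2 : Fin (d + 1) := ⟨2, by omega⟩
  have h01 : c0 ≠ c1 := by simp [c0, c1]
  have h02 : c0 ≠ c2 := by simp [c0, c2]
  have h12 : c1 ≠ c2 := by simp [c1, c2]
  constructor
  · intro hk
    refine cube_core (by omega) f hf x0 hdiag hsupp (fun _ => ⟨0, by omega⟩) c0 c1 h01
      (fun c => (if c = c0 then 1 else 0) - (if c = c2 then 1 else 0)) {c0, c1, c2} ?_ (by simp)
      (by simp) ?_ ?_ ?_ n (by omega) ?_ R hR
    · refine lt_of_le_of_lt card_le_three (by omega)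
    · intro c hc
      by_contra hcon
      simp only [mem_insert, mem_singleton, not_or] at hcon
      apply hc
      rw [if_neg hcon.1, if_neg hcon.2.2, sub_zero]
    · simp [h02]
    · simp [h01.symm, h12]
    · intro j
      rw [filter_true_of_mem]
      · simp
      · intro t _
        right
        simp
  · rintro rfl
    refine cube_core (by omega) f hf x0 hdiag hsupp
      (fun t => ⟨t.val % 3, Nat.mod_lt _ (by norm_num)⟩) c0 c1 h01
      (fun c => (if c = c0 then 1 else 0)) {c0, c1} ?_ (by simp)
      (by simp) ?_ ?_ ?_ (2 * (n / 3)) (by omega) ?_ R hR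
    · refine lt_of_le_of_lt card_le_two (by omega)
    · intro c hc
      by_contra hcon
      simp only [mem_insert, mem_singleton, not_or] at hcon
      exact hc (if_neg hcon.1)
    · simp
    · simp [h01.symm]
    · intro j
      refine (count_mod n j).trans (card_le_card ?_)
      intro t ht
      exact mem_filter.mpr ⟨mem_univ _, Or.inl (mem_filter.mp ht).2⟩

end Pool.Agent.H148.SF
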